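import Pool.Agent.L5helper82.FP.Glasner

set_option linter.unusedSectionVars false

open Topology Filter Set MeasureTheory

namespace Pool.Agent.L5helper82.FP

/-- `X` is a `G`-boundary: a nonempty compact Hausdorff space with a jointly continuous action of
`G`, minimal (all orbits are dense) and strongly proximal (for each regular Borel probability
measure `m` the weak-* closure of the set of its translates contains a point mass). -/
structure IsBoundary (G X : Type) [Group G] [TopologicalSpace G] [TopologicalSpace X]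
    [MulAction G X] : Prop where
  nonempty : Nonempty X
  compact : CompactSpace X
  hausdorff : T2Space X
  continuous_action : Continuous fun p : G × X => p.1 • p.2
  minimal : ∀ x : X, Dense (Set.range fun g : G => g • x)
  proximal : letI : MeasurableSpace X := borel X
    ∀ m : Measure X, IsProbabilityMeasure m → m.Regular →
      ∃ x : X, (fun f : C(X, ℝ) => f x) ∈
        closure (Set.range fun (g : G) (f : C(X, ℝ)) => ∫ y, f (g • y) ∂m)

/-- `X` is the universal `G`-boundary (Furstenberg boundary): a `G`-boundary that maps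
continuously, equivariantly and onto every `G`-boundary. -/
def IsFurstenberg (G X : Type) [Group G] [TopologicalSpace G] [TopologicalSpace X]
    [MulAction G X] : Prop :=
  IsBoundary G X ∧ ∀ (Y : Type) [TopologicalSpace Y] [MulAction G Y], IsBoundary G Y →
    ∃ π : X → Y, Continuous π ∧ Function.Surjective π ∧ ∀ (g : G) (x : X), π (g • x) = g • π x

section

variable {G V : Type} [Group G] [TopologicalSpace G] [AddCommGroup V] [Module ℝ V]
  {τ : G → V →ₗ[ℝ] V} (hτ : Sys τ)
  {C : Set (V → ℝ)} (hCl : ∀ m ∈ C, IsLin m) (hCc : IsCompact C) (hCv : Convex ℝ C)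
  (hCn : C.Nonempty) (hCi : ∀ g, ∀ m ∈ C, ac τ g m ∈ C)

/-- closure of the set of states under approximation against finitely many functions -/
theorem mem_closure_of {X ι : Type} [TopologicalSpace X] (φ : ι → C(X, ℝ) → ℝ)
    (hφ : ∀ i, IsState (φ i)) (x : X)
    (H : ∀ h : C(X, ℝ), 0 ≤ h → h x = 0 → ∀ ε > 0, ∃ i, φ i h < ε) :
    (fun f : C(X, ℝ) => f x) ∈ closure (Set.range φ) := by
  rw [mem_closure_iff_nhds]
  intro t ht
  rw [nhds_pi, Filter.mem_pi'] at ht
  obtain ⟨I, u, hu, hI⟩ := ht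
  have hδ : ∀ k : C(X, ℝ), ∃ δ > 0, Metric.ball (k x) δ ⊆ u k := fun k =>
    Metric.mem_nhds_iff.mp (hu k)
  choose δ hδ0 hδ1 using hδ
  obtain ⟨η, hη0, hη⟩ : ∃ η > 0, ∀ k ∈ I, η ≤ δ k := by
    rcases I.eq_empty_or_nonempty with h | h
    · exact ⟨1, one_pos, by simp [h]⟩
    · exact ⟨I.inf' h δ, by simpa using fun k _ => hδ0 k, fun k hk => Finset.inf'_le _ hk⟩
  let h : C(X, ℝ) := ∑ k ∈ I, |k - (k x) • (1 : C(X, ℝ))|
  have hh0 : 0 ≤ h := Finset.sum_nonneg fun k _ => abs_nonneg _
  have hhx : h x = 0 := by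
    simp [h]
  obtain ⟨i, hi⟩ := H h hh0 hhx η hη0
  refine ⟨φ i, hI fun k hk => hδ1 k ?_, i, rfl⟩
  rw [Metric.mem_ball, Real.dist_eq]
  have h1 : |φ i k - k x| ≤ φ i (|k - (k x) • (1 : C(X, ℝ))|) := by
    have e : φ i (k - (k x) • (1 : C(X, ℝ))) = φ i k - k x := by
      rw [(hφ i).sub, (hφ i).smul, (hφ i).one, mul_one]
    rw [abs_le, ← e]
    constructor
    · rw [← (hφ i).neg]
      exact (hφ i).mono fun y => by
        simpa using neg_abs_le ((k - (k x) • (1 : C(X, ℝ))) y)
    · exact (hφ i).mono (le_abs_self _)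
  have h2 : φ i (|k - (k x) • (1 : C(X, ℝ))|) ≤ φ i h := by
    refine (hφ i).mono ?_
    exact Finset.single_le_sum (f := fun k : C(X, ℝ) => |k - (k x) • (1 : C(X, ℝ))|)
      (fun k _ => abs_nonneg _) hk
  exact (h1.trans h2).trans_lt (hi.trans_le (hη k hk))

include hτ hCl hCc hCv hCn hCi in
theorem boundary_of_sys : ∃ (E : Type) (_ : TopologicalSpace E) (_ : MulAction G E),
    IsBoundary G E ∧ ∃ ι : E → (V → ℝ), (∀ e, ι e ∈ C) ∧ ∀ g e, ι (g • e) = ac τ g (ι e) := by
  obtain ⟨D, hDC, hDn, hDc, hDv, hDi, hmin⟩ := exists_minimal hCc hCv hCn hCi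
  have hDcomp : IsCompact D := hCc.of_isClosed_subset hDc hDC
  have hDl : ∀ m ∈ D, IsLin m := fun m hm => hCl m (hDC hm)
  let X0 : Set (V → ℝ) := D.extremePoints ℝ
  have hX0n : X0.Nonempty := hDcomp.extremePoints_nonempty hDn
  have hX0i : ∀ g, ∀ m ∈ X0, ac τ g m ∈ X0 := by
    intro g m hm
    refine ⟨hDi g m hm.1, ?_⟩
    intro y hy z hz hseg
    obtain ⟨a, b, ha, hb, hab, he⟩ := hseg
    have h1 : m = a • ac τ g⁻¹ y + b • ac τ g⁻¹ z := by
      have : ac τ g⁻¹ (ac τ g m) = m := by rw [← ac_mul hτ, inv_mul_cancel, ac_one hτ]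
      rw [← this, ← he]
      rfl
    have h2 := hm.2 (hDi g⁻¹ y hy) (hDi g⁻¹ z hz) ⟨a, b, ha, hb, hab, h1.symm⟩
    rw [← h2, ← ac_mul hτ, mul_inv_cancel, ac_one hτ]
  let E : Set (V → ℝ) := closure X0
  have hED : E ⊆ D := closure_minimal extremePoints_subset hDc
  have hEc : IsCompact E := hDcomp.of_isClosed_subset isClosed_closure hED
  have hEi : ∀ g, ∀ m ∈ E, ac τ g m ∈ E := fun g m hm =>
    map_mem_closure (ac_continuous g) hm (hX0i g)
  haveI : CompactSpace E := isCompact_iff_compactSpace.mp hEc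
  let act : MulAction G E :=
    { smul := fun g e => ⟨ac τ g e.1, hEi g e.1 e.2⟩
      one_smul := fun e => Subtype.ext (ac_one hτ e.1)
      mul_smul := fun g h e => Subtype.ext (ac_mul hτ g h e.1) }
  have hclaim : ∀ (x : V → ℝ) (hx : x ∈ X0) (μ : C(E, ℝ) → ℝ) (hμ : IsState μ) (h : C(E, ℝ))
      (h0 : 0 ≤ h) (hhx : h ⟨x, subset_closure hx⟩ = 0) (ε : ℝ) (hε : 0 < ε),
      ∃ g, μ (h.comp (acE hEi g)) < ε := fun x hx μ hμ h h0 hhx ε hε =>
    main_claim hτ hDl hDc hDv hED hx hEi hmin (subset_closure hx) μ hμ h h0 hhx ε hε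
  refine ⟨E, inferInstance, act, ⟨?_, inferInstance, inferInstance, ?_, ?_, ?_⟩,
    fun e => e.1, fun e => hDC (hED e.2), fun g e => rfl⟩
  · obtain ⟨x, hx⟩ := hX0n
    exact ⟨⟨x, subset_closure hx⟩⟩
  · refine Continuous.subtype_mk ?_ _
    exact (ac_jcont hτ).comp (continuous_fst.prodMk (continuous_subtype_val.comp continuous_snd))
  · intro e
    have hdense : Dense {y : E | y.1 ∈ X0} := by
      rw [Subtype.dense_iff]
      intro z hz
      refine closure_mono ?_ hz
      intro w hw
      exact ⟨⟨w, subset_closure hw⟩, hw, rfl⟩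
    have hsub : {y : E | y.1 ∈ X0} ⊆ closure (Set.range fun g : G => g • e) := by
      intro y hy
      by_contra hn
      obtain ⟨f, hf0, hf1, hf⟩ := exists_continuous_zero_one_of_isClosed
        (isClosed_singleton (x := y)) (isClosed_closure (s := Set.range fun g : G => g • e))
        (Set.disjoint_singleton_left.mpr hn)
      have hst : IsState fun k : C(E, ℝ) => k e :=
        ⟨fun _ _ => rfl, fun _ _ => rfl, fun f hf => hf e, rfl⟩
      obtain ⟨g, hg⟩ := hclaim y.1 hy _ hst f (fun z => (hf z).1) (hf0 rfl) 1 one_pos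
      have h1 : f (g • e) = 1 := hf1 (subset_closure ⟨g, rfl⟩)
      have h2 : f (g • e) < 1 := hg
      rw [h1] at h2
      exact lt_irrefl _ h2
    exact (hdense.mono hsub).of_closure
  · letI : MeasurableSpace E := borel E
    intro m hm hreg
    haveI : BorelSpace E := ⟨rfl⟩
    obtain ⟨x, hx⟩ := hX0n
    have hint : ∀ k : C(E, ℝ), Integrable (fun y => k y) m := fun k =>
      k.continuous.integrable_of_hasCompactSupport (HasCompactSupport.of_compactSpace k)
    have hst : IsState fun k : C(E, ℝ) => ∫ y, k y ∂m := by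
      refine ⟨?_, ?_, ?_, ?_⟩
      · intro f k
        exact integral_add (hint f) (hint k)
      · intro c f
        exact integral_const_mul c f
      · intro f hf
        exact integral_nonneg fun y => hf y
      · simp
    refine ⟨⟨x, subset_closure hx⟩, ?_⟩
    refine mem_closure_of (fun (g : G) (f : C(E, ℝ)) => ∫ y, f (g • y) ∂m) ?_ _ ?_
    · intro g
      refine ⟨?_, ?_, ?_, ?_⟩
      · intro f k
        exact hst.add (f.comp (acE hEi g)) (k.comp (acE hEi g))
      · intro c f
        exact hst.smul c (f.comp (acE hEi g))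
      · intro f hf
        exact hst.pos (f.comp (acE hEi g)) fun y => hf (acE hEi g y)
      · exact hst.one
    · intro h h0 hhx ε hε
      exact hclaim x hx _ hst h h0 hhx ε hε

end

end Pool.Agent.L5helper82.FP
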