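import Mathlib

set_option linter.unusedSectionVars false

open Topology Filter Set

namespace Pool.Agent.L5helper82.FP

section

variable {A : ℕ → Type} [∀ n, Group (A n)] (f : ∀ n, A n →* A (n + 1))

/-- composite transition maps -/
def fm (i j : ℕ) (h : i ≤ j) : A i →* A j :=
  Nat.leRecOn (C := fun k => A i →* A k) h (fun {k} g => (f k).comp g) (MonoidHom.id _)

theorem fm_self (i : ℕ) : fm f i i le_rfl = MonoidHom.id _ := by
  unfold fm
  rw [Nat.leRecOn_self]

theorem fm_succ {i j : ℕ} (h : i ≤ j) : fm f i (j + 1) (h.trans (Nat.le_succ j)) =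
    (f j).comp (fm f i j h) := by
  unfold fm
  rw [Nat.leRecOn_succ h]

theorem fm_trans {i j k : ℕ} (hij : i ≤ j) (hjk : j ≤ k) (x : A i) :
    fm f j k hjk (fm f i j hij x) = fm f i k (hij.trans hjk) x := by
  induction k, hjk using Nat.le_induction with
  | base => rw [fm_self]; rfl
  | succ k hjk ih =>
    rw [fm_succ f hjk, fm_succ f (hij.trans hjk), MonoidHom.comp_apply, MonoidHom.comp_apply, ih]

theorem fm_inj (hf : ∀ n, Function.Injective (f n)) {i j : ℕ} (h : i ≤ j) :
    Function.Injective (fm f i j h) := by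
  induction j, h using Nat.le_induction with
  | base => rw [fm_self]; exact fun _ _ h => h
  | succ k hjk ih =>
    rw [fm_succ f hjk]
    exact (hf k).comp ih

instance dsys : DirectedSystem A (fun i j h => (fm f i j h : A i → A j)) where
  map_self i x := by
    change fm f i i le_rfl x = x
    rw [fm_self]
    rfl
  map_map {i j k} hij hjk x := fm_trans f hij hjk x

/-- the limit group -/
abbrev Lim := DirectLimit A (fun i j h => fm f i j h)

/-- the canonical maps -/
noncomputable def im (n : ℕ) : A n →* Lim f where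
  toFun x := ⟦⟨n, x⟩⟧
  map_one' := (DirectLimit.one_def n).symm
  map_mul' x y := (DirectLimit.mul_def n x y).symm

theorem im_succ (n : ℕ) (x : A n) : im f (n + 1) (f n x) = im f n x := by
  have h := DirectLimit.mk_apply (F := A) (f := fun i j h => fm f i j h) n (n + 1) x (Nat.le_succ n)
  have e : fm f n (n + 1) (Nat.le_succ n) x = f n x := by
    rw [show fm f n (n + 1) (Nat.le_succ n) = (f n).comp (fm f n n le_rfl) from fm_succ f le_rfl,
      fm_self]
    rfl
  rw [e] at h
  exact h

theorem im_fm {i j : ℕ} (h : i ≤ j) (x : A i) : im f j (fm f i j h x) = im f i x := by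
  induction j, h using Nat.le_induction with
  | base => rw [fm_self]; rfl
  | succ k hik ih => rw [fm_succ f hik, MonoidHom.comp_apply, im_succ, ih]

theorem im_surj (x : Lim f) : ∃ n y, im f n y = x := by
  obtain ⟨n, y, h⟩ := DirectLimit.exists_eq_mk (fun i j h => fm f i j h) x
  exact ⟨n, y, h.symm⟩

theorem im_inj (hf : ∀ n, Function.Injective (f n)) (n : ℕ) : Function.Injective (im f n) :=
  DirectLimit.mk_injective (fun i j h => fm f i j h) (fun i j h => fm_inj f hf h) n

variable [∀ n, TopologicalSpace (A n)] [∀ n, IsTopologicalGroup (A n)]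

/-- the limit topology -/
noncomputable instance topLim : TopologicalSpace (Lim f) := ⨆ n, TopologicalSpace.coinduced (im f n) inferInstance

theorem isOpen_lim {U : Set (Lim f)} : IsOpen U ↔ ∀ n, IsOpen (im f n ⁻¹' U) := by
  rw [isOpen_iSup_iff]
  rfl

theorem continuous_im (n : ℕ) : Continuous (im f n) :=
  ⟨fun _ hU => (isOpen_lim f).mp hU n⟩

theorem fm_open (hf : ∀ n, IsOpenEmbedding (f n)) {i j : ℕ} (h : i ≤ j) :
    IsOpenEmbedding (fm f i j h) := by
  induction j, h using Nat.le_induction with
  | base => rw [fm_self]; exact IsOpenEmbedding.id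
  | succ k hik ih =>
    rw [fm_succ f hik]
    exact (hf k).comp ih

theorem im_openEmb (hf : ∀ n, IsOpenEmbedding (f n)) (n : ℕ) : IsOpenEmbedding (im f n) := by
  have hinj : ∀ n, Function.Injective (f n) := fun n => (hf n).injective
  refine .of_continuous_injective_isOpenMap (continuous_im f n) (im_inj f hinj n) ?_
  intro O hO
  rw [isOpen_lim]
  intro m
  have h : im f m ⁻¹' (im f n '' O) =
      fm f m (max m n) (le_max_left _ _) ⁻¹' (fm f n (max m n) (le_max_right _ _) '' O) := by
    ext x
    constructor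
    · rintro ⟨y, hy, he⟩
      refine ⟨y, hy, ?_⟩
      apply im_inj f hinj (max m n)
      rw [im_fm, im_fm, he]
    · rintro ⟨y, hy, he⟩
      refine ⟨y, hy, ?_⟩
      rw [← im_fm f (le_max_right m n) y, he, im_fm]
  rw [h]
  exact ((fm_open f hf _).isOpenMap O hO).preimage (fm_open f hf _).continuous

theorem common (x y : Lim f) : ∃ n a b, im f n a = x ∧ im f n b = y := by
  obtain ⟨n, a, rfl⟩ := im_surj f x
  obtain ⟨m, b, rfl⟩ := im_surj f y
  exact ⟨max n m, fm f n _ (le_max_left _ _) a, fm f m _ (le_max_right _ _) b, im_fm f _ a,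
    im_fm f _ b⟩

theorem lim_group (hf : ∀ n, IsOpenEmbedding (f n)) : IsTopologicalGroup (Lim f) := by
  have hc : ContinuousMul (Lim f) := ⟨by
    rw [continuous_iff_continuousAt]
    rintro ⟨x, y⟩
    obtain ⟨n, a, b, rfl, rfl⟩ := common f x y
    have he := (im_openEmb f hf n).prodMap (im_openEmb f hf n)
    have : ContinuousAt ((fun p : Lim f × Lim f => p.1 * p.2) ∘
        Prod.map (im f n) (im f n)) (a, b) := by
      have h2 : (fun p : Lim f × Lim f => p.1 * p.2) ∘ Prod.map (im f n) (im f n) =
          fun p : A n × A n => im f n (p.1 * p.2) := by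
        funext p
        simp
      rw [h2]
      exact ((continuous_im f n).comp continuous_mul).continuousAt
    exact he.continuousAt_iff.mp this⟩
  have hi : ContinuousInv (Lim f) := ⟨by
    rw [continuous_iff_continuousAt]
    intro x
    obtain ⟨n, a, rfl⟩ := im_surj f x
    have : ContinuousAt ((fun p : Lim f => p⁻¹) ∘ im f n) a := by
      have h2 : (fun p : Lim f => p⁻¹) ∘ im f n = fun p : A n => im f n p⁻¹ := by
        funext p
        simp
      rw [h2]
      exact ((continuous_im f n).comp continuous_inv).continuousAt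
    exact (im_openEmb f hf n).continuousAt_iff.mp this⟩
  exact {}

theorem lim_t2 (hf : ∀ n, IsOpenEmbedding (f n)) [∀ n, T2Space (A n)] : T2Space (Lim f) := by
  refine ⟨fun x y hxy => ?_⟩
  obtain ⟨n, a, b, rfl, rfl⟩ := common f x y
  have hab : a ≠ b := fun h => hxy (by rw [h])
  obtain ⟨u, v, hu, hv, hau, hbv, huv⟩ := t2_separation hab
  have he := im_openEmb f hf n
  exact ⟨im f n '' u, im f n '' v, he.isOpenMap u hu, he.isOpenMap v hv, ⟨a, hau, rfl⟩,
    ⟨b, hbv, rfl⟩, (disjoint_image_iff he.injective).mpr huv⟩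

theorem lim_lc (hf : ∀ n, IsOpenEmbedding (f n)) [∀ n, LocallyCompactSpace (A n)] :
    LocallyCompactSpace (Lim f) := by
  refine ⟨fun x u hu => ?_⟩
  obtain ⟨n, a, rfl⟩ := im_surj f x
  have he := im_openEmb f hf n
  obtain ⟨s, hs, hsu, hsc⟩ := local_compact_nhds (he.continuous.continuousAt.preimage_mem_nhds hu)
  refine ⟨im f n '' s, ?_, image_subset_iff.mpr hsu, hsc.image he.continuous⟩
  exact he.isOpenMap.image_mem_nhds hs

theorem lim_sc (hf : ∀ n, IsOpenEmbedding (f n)) [∀ n, SecondCountableTopology (A n)] :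
    SecondCountableTopology (Lim f) := by
  have he := im_openEmb f hf
  haveI : ∀ n, SecondCountableTopology (range (im f n)) := fun n =>
    (he n).toIsEmbedding.toHomeomorph.symm.secondCountableTopology
  refine TopologicalSpace.secondCountableTopology_of_countable_cover
    (U := fun n => range (im f n)) (fun n => (he n).isOpen_range) ?_
  rw [eq_univ_iff_forall]
  intro x
  obtain ⟨n, a, rfl⟩ := im_surj f x
  exact mem_iUnion.mpr ⟨n, a, rfl⟩

end

end Pool.Agent.L5helper82.FP
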