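import Pool.Agent.L5helper82.FP.Red

set_option linter.unusedSectionVars false

open MeasureTheory Topology Filter
open scoped ENNReal InnerProductSpace Pointwise

namespace Pool.Agent.L5helper82.FP

section Eta

variable {G : Type} [Group G] [TopologicalSpace G] [IsTopologicalGroup G]

/-- The indicator function of a subgroup. -/
noncomputable def ind (K : Subgroup G) (g : G) : ℂ := (K : Set G).indicator (fun _ => 1) g

theorem ind_mem {K : Subgroup G} {g : G} (h : g ∈ K) : ind K g = 1 := by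
  simp [ind, h]

theorem ind_not_mem {K : Subgroup G} {g : G} (h : g ∉ K) : ind K g = 0 := by
  simp [ind, h]

theorem ind_mul_left {K : Subgroup G} {k g : G} (hk : k ∈ K) : ind K (k * g) = ind K g := by
  by_cases h : g ∈ K
  · rw [ind_mem h, ind_mem (K.mul_mem hk h)]
  · rw [ind_not_mem h, ind_not_mem]
    rwa [K.mul_mem_cancel_left hk]

theorem continuous_ind {K : Subgroup G} (hK : IsOpen (K : Set G)) : Continuous (ind K) := by
  have hc : IsClosed (K : Set G) := K.isClosed_of_isOpen hK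
  have : IsClopen (K : Set G) := ⟨hc, hK⟩
  unfold ind
  refine continuous_indicator ?_ continuousOn_const
  intro a ha
  rw [this.frontier_eq] at ha
  exact absurd ha (Set.notMem_empty a)

/-- A weighted sum of indicators of right translates. -/
noncomputable def eta (K : Subgroup G) (σ : G → ℂ) (A : Finset G) (g : G) : ℂ :=
  ∑ f ∈ A, σ f * ind K (g * f)

theorem continuous_eta {K : Subgroup G} (hK : IsOpen (K : Set G)) (σ : G → ℂ) (A : Finset G) :
    Continuous (eta K σ A) := by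
  unfold eta
  refine continuous_finsetSum _ fun f _ => continuous_const.mul ?_
  exact (continuous_ind hK).comp (continuous_mul_const f)

theorem eta_ne {K : Subgroup G} {σ : G → ℂ} {A : Finset G} {g : G} (h : eta K σ A g ≠ 0) :
    ∃ f ∈ A, g * f ∈ K := by
  obtain ⟨f, hf, hne⟩ := Finset.exists_ne_zero_of_sum_ne_zero h
  refine ⟨f, hf, ?_⟩
  by_contra hn
  exact hne (by rw [ind_not_mem hn, mul_zero])

theorem eta_left {K : Subgroup G} {σ : G → ℂ} {A : Finset G} {g k : G} (hk : k ∈ K) :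
    eta K σ A (k * g) = eta K σ A g := by
  unfold eta
  refine Finset.sum_congr rfl fun f _ => ?_
  rw [mul_assoc, ind_mul_left hk]

theorem eta_compact [T2Space G] {K : Subgroup G} (hK : IsCompact (K : Set G)) (σ : G → ℂ)
    (A : Finset G) : HasCompactSupport (eta K σ A) := by
  have hc : IsCompact (⋃ f ∈ A, (fun x => x * f⁻¹) '' (K : Set G)) :=
    A.finite_toSet.isCompact_biUnion fun f _ => hK.image (continuous_mul_const f⁻¹)
  refine HasCompactSupport.intro hc fun x hx => ?_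
  by_contra hne
  obtain ⟨f, hf, hm⟩ := eta_ne hne
  refine hx (Set.mem_biUnion (Finset.mem_coe.mpr hf) ⟨x * f, hm, ?_⟩)
  simp

end Eta

section Main

variable {G : Type} [Group G] [TopologicalSpace G] [IsTopologicalGroup G]
  [LocallyCompactSpace G] [T2Space G] [SecondCountableTopology G]
  [MeasurableSpace G] [BorelSpace G] (μ : Measure G) [μ.IsHaarMeasure]

theorem eta_memLp {K : Subgroup G} (hKo : IsOpen (K : Set G)) (hKc : IsCompact (K : Set G))
    (σ : G → ℂ) (A : Finset G) : MemLp (eta K σ A) 2 μ :=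
  (continuous_eta hKo σ A).memLp_of_hasCompactSupport (eta_compact hKc σ A)

theorem lreg_toLp {f : G → ℂ} (hf : MemLp f 2 μ) (x : G) :
    lreg μ x (hf.toLp f) =
      (hf.comp_measurePreserving (measurePreserving_mul_left μ x⁻¹)).toLp
        (fun g => f (x⁻¹ * g)) := rfl

theorem inner_toLp {a b : G → ℂ} (ha : MemLp a 2 μ) (hb : MemLp b 2 μ) :
    ⟪ha.toLp a, hb.toLp b⟫_ℂ = ∫ g, (starRingEnd ℂ) (a g) * b g ∂μ := by
  rw [L2.inner_def]
  refine integral_congr_ae ?_
  filter_upwards [ha.coeFn_toLp, hb.coeFn_toLp] with g h1 h2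
  rw [h1, h2, RCLike.inner_apply, mul_comm]

theorem ind_integrable {K : Subgroup G} (hKo : IsOpen (K : Set G)) (hKc : IsCompact (K : Set G)) :
    Integrable (ind K) μ := by
  refine (continuous_ind hKo).integrable_of_hasCompactSupport ?_
  refine HasCompactSupport.intro hKc fun x hx => ind_not_mem hx

theorem integral_ind {K : Subgroup G} (hKo : IsOpen (K : Set G)) :
    ∫ y, ind K y ∂μ = (μ.real (K : Set G) : ℂ) := by
  unfold ind
  rw [integral_indicator hKo.measurableSet]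
  simp

theorem conv_fixed {K : Subgroup G} (hKo : IsOpen (K : Set G))
    {T : Lp ℂ 2 μ →L[ℂ] Lp ℂ 2 μ} (hT : IsConv μ (ind K) T) (ζ : Lp ℂ 2 μ)
    (hfix : ∀ y ∈ K, lreg μ y ζ = ζ) : ⟪ζ, T ζ⟫_ℂ = (μ.real (K : Set G) : ℂ) * ⟪ζ, ζ⟫_ℂ := by
  rw [hT.2, ← integral_ind μ hKo, ← integral_mul_const]
  congr 1
  funext y
  by_cases hy : y ∈ K
  · rw [hfix y hy]
  · rw [ind_not_mem hy, zero_mul, zero_mul]

theorem eta_fixed {K : Subgroup G} (hKo : IsOpen (K : Set G)) (hKc : IsCompact (K : Set G))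
    (σ : G → ℂ) (A : Finset G) {y : G} (hy : y ∈ K) :
    lreg μ y ((eta_memLp μ hKo hKc σ A).toLp (eta K σ A)) =
      (eta_memLp μ hKo hKc σ A).toLp (eta K σ A) := by
  rw [lreg_toLp]
  congr 1
  funext g
  rw [eta_left (K.inv_mem hy)]

theorem toLp_ne_zero {f : G → ℂ} (hf : MemLp f 2 μ) (hc : Continuous f) {g : G} (hg : f g ≠ 0) :
    hf.toLp f ≠ 0 := by
  intro h0
  have h1 : f =ᵐ[μ] 0 := by
    have := hf.coeFn_toLp
    rw [h0] at this
    exact this.symm.trans (Lp.coeFn_zero ℂ 2 μ)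
  have h2 : f = 0 := (Continuous.ae_eq_iff_eq μ hc continuous_const).mp h1
  exact hg (by rw [h2]; rfl)

variable {K K0 H : Subgroup G} (hKo : IsOpen (K : Set G)) (hKc : IsCompact (K : Set G))
  (hK0o : IsOpen (K0 : Set G)) (hK0c : IsCompact (K0 : Set G)) (σ : G → ℂ)
  (hσm : ∀ a ∈ H, ∀ b ∈ H, σ (a * b) = σ a * σ b) (hσ : ∀ a ∈ H, σ a = 1 ∨ σ a = -1)
  (hdisj : ∀ a ∈ H, a ∈ K0 → a = 1)
  (hodd : ∀ g : G, ∃ k ∈ K, g⁻¹ * k * g ∈ H ∧ σ (g⁻¹ * k * g) = -1)

include hσm hσ in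
theorem eta_right {A : Finset G} {B : Subgroup G} (hAB : ∀ x, x ∈ A ↔ x ∈ B) (hBH : B ≤ H)
    {f x : G} (hf : f ∈ B) : eta K0 σ A (x * f) = σ f * eta K0 σ A x := by
  unfold eta
  rw [Finset.mul_sum]
  refine Finset.sum_nbij' (fun a => f * a) (fun a => f⁻¹ * a) ?_ ?_ ?_ ?_ ?_
  · intro a ha
    exact (hAB _).mpr (B.mul_mem hf ((hAB _).mp ha))
  · intro a ha
    exact (hAB _).mpr (B.mul_mem (B.inv_mem hf) ((hAB _).mp ha))
  · intro a _
    simp
  · intro a _
    simp
  · intro a ha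
    rw [hσm f (hBH hf) a (hBH ((hAB _).mp ha)), ← mul_assoc, ← mul_assoc (σ f), mul_assoc x f a]
    have : σ f * σ f = 1 := by
      rcases hσ f (hBH hf) with h | h <;> rw [h] <;> norm_num
    rw [this, one_mul]

/-- the inner average -/
noncomputable def avg (K0 : Subgroup G) (σ : G → ℂ) (A : Finset G) (K : Subgroup G) (t g : G) : ℂ :=
  ∫ y, ind K y * eta K0 σ A (t⁻¹ * (y⁻¹ * g)) ∂μ

include hσm hσ in
theorem avg_right {A : Finset G} {B : Subgroup G} (hAB : ∀ x, x ∈ A ↔ x ∈ B) (hBH : B ≤ H)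
    {f g t : G} (hf : f ∈ B) : avg μ K0 σ A K t (g * f) = σ f * avg μ K0 σ A K t g := by
  unfold avg
  rw [← integral_const_mul]
  congr 1
  funext y
  rw [show t⁻¹ * (y⁻¹ * (g * f)) = (t⁻¹ * (y⁻¹ * g)) * f by group,
    eta_right σ hσm hσ hAB hBH hf]
  ring

include hσm hσ in
theorem avg_zero {A : Finset G} {B : Subgroup G} (hAB : ∀ x, x ∈ A ↔ x ∈ B) (hBH : B ≤ H)
    {g t h : G} (hh : h ∈ B) (hk : g * h * g⁻¹ ∈ K) (hs : σ h = -1) :
    avg μ K0 σ A K t g = 0 := by
  have h1 : avg μ K0 σ A K t g = - avg μ K0 σ A K t g := by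
    calc avg μ K0 σ A K t g
        = ∫ y, ind K ((g * h * g⁻¹)⁻¹ * y) *
            eta K0 σ A (t⁻¹ * (((g * h * g⁻¹)⁻¹ * y)⁻¹ * g)) ∂μ :=
          (integral_mul_left_eq_self (fun y => ind K y * eta K0 σ A (t⁻¹ * (y⁻¹ * g)))
            (g * h * g⁻¹)⁻¹).symm
      _ = ∫ y, ind K y * eta K0 σ A (t⁻¹ * (y⁻¹ * (g * h))) ∂μ := by
          congr 1
          funext y
          rw [ind_mul_left (K.inv_mem hk)]
          congr 2
          group
      _ = avg μ K0 σ A K t (g * h) := rfl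
      _ = - avg μ K0 σ A K t g := by
          rw [avg_right μ σ hσm hσ hAB hBH hh, hs]
          ring
  exact self_eq_neg.mp h1

/-- the test vectors -/
noncomputable def vec (hK0o : IsOpen (K0 : Set G)) (hK0c : IsCompact (K0 : Set G)) (σ : G → ℂ)
    (A : Finset G) : Lp ℂ 2 μ := (eta_memLp μ hK0o hK0c σ A).toLp (eta K0 σ A)

theorem inner_vec (A : Finset G) (s t y : G) :
    ⟪lreg μ s (vec μ hK0o hK0c σ A), lreg μ y (lreg μ t (vec μ hK0o hK0c σ A))⟫_ℂ =
      ∫ g, (starRingEnd ℂ) (eta K0 σ A (s⁻¹ * g)) * eta K0 σ A (t⁻¹ * (y⁻¹ * g)) ∂μ := by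
  unfold vec
  rw [lreg_toLp, lreg_toLp, lreg_toLp, inner_toLp]

include hKo hKc hK0o hK0c in
theorem swap_aux (A : Finset G) (s t : G) :
    ∫ y, ind K y * (∫ g, (starRingEnd ℂ) (eta K0 σ A (s⁻¹ * g)) *
        eta K0 σ A (t⁻¹ * (y⁻¹ * g)) ∂μ) ∂μ =
      ∫ g, (starRingEnd ℂ) (eta K0 σ A (s⁻¹ * g)) * avg μ K0 σ A K t g ∂μ := by
  have hint : Integrable (fun p : G × G => ind K p.1 * ((starRingEnd ℂ) (eta K0 σ A (s⁻¹ * p.2)) *
        eta K0 σ A (t⁻¹ * (p.1⁻¹ * p.2)))) (μ.prod μ) := by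
    have he := continuous_eta hK0o σ A
    refine Continuous.integrable_of_hasCompactSupport ?_ ?_
    · refine ((continuous_ind hKo).comp continuous_fst).mul (Continuous.mul ?_ ?_)
      · exact Complex.continuous_conj.comp (he.comp (continuous_const.mul continuous_snd))
      · exact he.comp (continuous_const.mul ((continuous_fst.inv).mul continuous_snd))
    · have hS : IsCompact ((fun x => s * x) '' tsupport (eta K0 σ A)) :=
        (eta_compact hK0c σ A).isCompact.image (continuous_const_mul s)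
      refine HasCompactSupport.intro (hKc.prod hS) fun p hp => ?_
      rw [Set.mem_prod, not_and_or] at hp
      rcases hp with hp | hp
      · rw [ind_not_mem hp, zero_mul]
      · have : eta K0 σ A (s⁻¹ * p.2) = 0 := by
          by_contra hne
          exact hp ⟨s⁻¹ * p.2, subset_tsupport _ hne, by simp⟩
        rw [this, map_zero, zero_mul, mul_zero]
  have hswap := integral_integral_swap (μ := μ) (ν := μ)
    (f := fun y g => ind K y * ((starRingEnd ℂ) (eta K0 σ A (s⁻¹ * g)) *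
        eta K0 σ A (t⁻¹ * (y⁻¹ * g)))) hint
  calc _ = ∫ y, ∫ g, ind K y * ((starRingEnd ℂ) (eta K0 σ A (s⁻¹ * g)) *
        eta K0 σ A (t⁻¹ * (y⁻¹ * g))) ∂μ ∂μ := by
        congr 1
        funext y
        rw [integral_const_mul]
    _ = _ := hswap
    _ = _ := by
        congr 1
        funext g
        unfold avg
        rw [← integral_const_mul]
        congr 1
        funext y
        ring

variable (F : ℕ → Subgroup G) (A : ℕ → Finset G) (hAF : ∀ n x, x ∈ A n ↔ x ∈ F n)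
  (hmono : Monotone F) (hFH : ∀ n, F n ≤ H) (hex : ∀ h ∈ H, ∃ n, h ∈ F n)

include hKo hKc hK0o hK0c hσm hσ hodd hAF hmono hFH hex in
theorem key (s : G) : ∃ n0, ∀ n ≥ n0, ∀ t,
    ∫ y, ind K y * ⟪lreg μ s (vec μ hK0o hK0c σ (A n)),
      lreg μ y (lreg μ t (vec μ hK0o hK0c σ (A n)))⟫_ℂ ∂μ = 0 := by
  have hS : IsCompact ((fun x => s * x) '' (K0 : Set G)) := hK0c.image (continuous_const_mul s)
  let O : {h : G // h ∈ H ∧ σ h = -1} → Set G := fun h => {g | g * h.1 * g⁻¹ ∈ K}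
  have hOo : ∀ h, IsOpen (O h) := by
    intro h
    have hc : Continuous fun g : G => g * h.1 * g⁻¹ :=
      (continuous_id.mul continuous_const).mul continuous_inv
    exact hKo.preimage hc
  have hcov : ((fun x => s * x) '' (K0 : Set G)) ⊆ ⋃ h, O h := by
    intro g _
    obtain ⟨k, hk, hH, hs⟩ := hodd g
    refine Set.mem_iUnion.mpr ⟨⟨g⁻¹ * k * g, hH, hs⟩, ?_⟩
    change g * (g⁻¹ * k * g) * g⁻¹ ∈ K
    simpa [mul_assoc] using hk
  obtain ⟨T, hT⟩ := hS.elim_finite_subcover O hOo hcov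
  choose N hN using fun h : {h : G // h ∈ H ∧ σ h = -1} => hex h.1 h.2.1
  refine ⟨T.sup N, fun n hn t => ?_⟩
  have h1 : (fun y => ind K y * ⟪lreg μ s (vec μ hK0o hK0c σ (A n)),
      lreg μ y (lreg μ t (vec μ hK0o hK0c σ (A n)))⟫_ℂ) =
      fun y => ind K y * (∫ g, (starRingEnd ℂ) (eta K0 σ (A n) (s⁻¹ * g)) *
        eta K0 σ (A n) (t⁻¹ * (y⁻¹ * g)) ∂μ) := by
    funext y
    rw [inner_vec]
  rw [h1, swap_aux μ hKo hKc hK0o hK0c σ (A n) s t]
  have h2 : (fun g => (starRingEnd ℂ) (eta K0 σ (A n) (s⁻¹ * g)) * avg μ K0 σ (A n) K t g) =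
      fun _ => 0 := by
    funext g
    by_cases hne : eta K0 σ (A n) (s⁻¹ * g) = 0
    · rw [hne, map_zero, zero_mul]
    obtain ⟨f, hf, hm⟩ := eta_ne hne
    have hfF : f ∈ F n := (hAF n f).mp hf
    have hgS : g * f ∈ (fun x => s * x) '' (K0 : Set G) :=
      ⟨s⁻¹ * g * f, hm, by simp [mul_assoc]⟩
    obtain ⟨h, hhT, hgO⟩ := Set.mem_iUnion₂.mp (hT hgS)
    have hhF : h.1 ∈ F n := hmono ((Finset.le_sup hhT).trans hn) (hN h)
    have hz : avg μ K0 σ (A n) K t (g * f) = 0 :=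
      avg_zero μ σ hσm hσ (hAF n) (hFH n) hhF hgO h.2.2
    rw [avg_right μ σ hσm hσ (hAF n) (hFH n) hfF] at hz
    have hσf : σ f ≠ 0 := by
      rcases hσ f (hFH n hfF) with h | h <;> rw [h] <;> norm_num
    rw [(mul_eq_zero.mp hz).resolve_left hσf, mul_zero]
  rw [h2, integral_zero]

include hK0o hσm hσ hdisj hAF hFH in
theorem vec_ne (n : ℕ) : vec μ hK0o hK0c σ (A n) ≠ 0 := by
  have h1 : σ 1 = 1 := by
    have h := hσm 1 H.one_mem 1 H.one_mem
    rw [mul_one] at h
    rcases hσ 1 H.one_mem with h' | h'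
    · exact h'
    · rw [h'] at h
      norm_num at h
  refine toLp_ne_zero μ _ (continuous_eta hK0o σ (A n)) (g := 1) ?_
  unfold eta
  rw [Finset.sum_eq_single 1]
  · rw [h1, one_mul, one_mul, ind_mem K0.one_mem]
    exact one_ne_zero
  · intro b hb hb1
    rw [one_mul, ind_not_mem, mul_zero]
    intro hbK
    exact hb1 (hdisj b (hFH n ((hAF n b).mp hb)) hbK)
  · intro h
    exact absurd ((hAF n 1).mpr (F n).one_mem) h

include hKo hKc hK0o hK0c hσm hσ hdisj hodd hAF hmono hFH hex in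
/-- The abstract non-simplicity criterion. -/
theorem not_simple : ¬ IsSimpleAlg (redCstar μ) := by
  intro hsimple
  let v : ℕ → Lp ℂ 2 μ := fun n => vec μ hK0o hK0c σ (A n)
  have hv : ∀ n, v n ≠ 0 := vec_ne μ hK0o hK0c σ hσm hσ hdisj F A hAF hFH
  let u : ℕ → Lp ℂ 2 μ := fun n => ((‖v n‖⁻¹ : ℝ) : ℂ) • v n
  have hu1 : ∀ n, ‖u n‖ = 1 := by
    intro n
    have := norm_ne_zero_iff.mpr (hv n)
    simp only [u, norm_smul, Complex.norm_real, norm_inv, norm_norm]
    field_simp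
  have hu : ∀ n, ‖u n‖ ≤ 1 := fun n => (hu1 n).le
  obtain ⟨T, hT⟩ := conv_exists μ (ind_integrable μ hKo hKc)
  obtain ⟨T0, hT0⟩ := conv_exists μ (ind_integrable μ hK0o hK0c)
  have hTI : T ∈ idl μ u hu := by
    refine ⟨red_of_conv μ hT, fun s t => ?_⟩
    obtain ⟨n0, hn0⟩ := key μ hKo hKc hK0o hK0c σ hσm hσ hodd F A hAF hmono hFH hex s
    refine tendsto_const_nhds.congr' ?_
    filter_upwards [eventually_ge_atTop n0] with n hn
    have h := hn0 n hn t
    simp only [u, map_smul, inner_smul_left, inner_smul_right]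
    rw [hT.2]
    change _ = _ * (_ * ∫ y, ind K y * ⟪lreg μ s (vec μ hK0o hK0c σ (A n)),
      lreg μ y (lreg μ t (vec μ hK0o hK0c σ (A n)))⟫_ℂ ∂μ)
    rw [h, mul_zero, mul_zero]
  have hT0I : T0 ∉ idl μ u hu := by
    intro h
    have h1 := h.2 1 1
    have hpos : (0 : ℝ) < μ.real (K0 : Set G) := by
      rw [measureReal_def]
      exact ENNReal.toReal_pos (hK0o.measure_pos μ ⟨1, K0.one_mem⟩).ne' hK0c.measure_lt_top.ne
    have h2 : ∀ n, ⟪lreg μ 1 (u n), T0 (lreg μ 1 (u n))⟫_ℂ = (μ.real (K0 : Set G) : ℂ) := by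
      intro n
      rw [lreg_one, one_apply_eq_self, conv_fixed μ hK0o hT0]
      · rw [inner_self_eq_norm_sq_to_K, hu1]
        simp
      · intro y hy
        simp only [u, map_smul]
        congr 1
        exact eta_fixed μ hK0o hK0c σ (A n) hy
    have h3 := tendsto_nhds_unique h1 ((tendsto_congr h2).mpr tendsto_const_nhds)
    have h4 : (μ.real (K0 : Set G)) = 0 := by exact_mod_cast h3.symm
    exact hpos.ne' h4
  have hT0A : T0 ∈ redCstar μ := red_of_conv μ hT0
  rcases hsimple (idl μ u hu) (fun x hx => hx.1) (idl_closed μ u hu)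
    (fun a ha x hx => idl_mul μ u hu ha hx) with h | h
  · have hT0' : T = 0 := by
      have : T ∈ (idl μ u hu : Set (Lp ℂ 2 μ →L[ℂ] Lp ℂ 2 μ)) := hTI
      rw [h] at this
      exact this
    let w : Lp ℂ 2 μ := vec μ hKo hKc (fun _ => 1) {1}
    have hw : w ≠ 0 := by
      refine toLp_ne_zero μ _ (continuous_eta hKo _ _) (g := 1) ?_
      simp [eta, ind_mem K.one_mem]
    have h1 := conv_fixed μ hKo hT w (fun y hy => eta_fixed μ hKo hKc _ _ hy)
    rw [hT0', ContinuousLinearMap.zero_apply, inner_zero_right] at h1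
    have hpos : (0 : ℝ) < μ.real (K : Set G) := by
      rw [measureReal_def]
      exact ENNReal.toReal_pos (hKo.measure_pos μ ⟨1, K.one_mem⟩).ne' hKc.measure_lt_top.ne
    rcases mul_eq_zero.mp h1.symm with h2 | h2
    · have h4 : (μ.real (K : Set G)) = 0 := by exact_mod_cast h2
      exact hpos.ne' h4
    · exact hw (inner_self_eq_zero.mp h2)
  · have : T0 ∈ (idl μ u hu : Set (Lp ℂ 2 μ →L[ℂ] Lp ℂ 2 μ)) := by
      rw [h]
      exact hT0A
    exact hT0I this

end Main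

end Pool.Agent.L5helper82.FP
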