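import Pool.Agent.L5helper82.FP.Group
import Pool.Agent.L5helper82.FP.NonSimple

set_option linter.unusedSectionVars false

open Set Topology Filter MeasureTheory

namespace Pool.Agent.L5helper82.FP

/-- A countable locally finite subgroup is an increasing union of finite subgroups. -/
theorem exhaust {T : Type} [Group T] {H : Subgroup T} (hlf : LF H) (hc : (H : Set T).Countable) :
    ∃ F : ℕ → Subgroup T, Monotone F ∧ (∀ n, (F n : Set T).Finite) ∧ (∀ n, F n ≤ H) ∧
      ∀ h ∈ H, ∃ n, h ∈ F n := by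
  obtain ⟨e, he⟩ := hc.exists_eq_range ⟨1, H.one_mem⟩
  have heH : ∀ n, e n ∈ H := by
    intro n
    have : e n ∈ (H : Set T) := by
      rw [he]
      exact mem_range_self n
    exact this
  let P : Type := {F : Subgroup T // (F : Set T).Finite ∧ F ≤ H}
  have step : ∀ (F : P) (x : T), x ∈ H → ∃ F' : P, F.1 ≤ F'.1 ∧ x ∈ F'.1 := by
    intro F x hx
    obtain ⟨F', h1, h2, h3⟩ := hlf (insert x (F.1 : Set T)) (F.2.1.insert x)
      (insert_subset hx F.2.2)
    exact ⟨⟨F', h1, h3⟩, fun y hy => h2 (mem_insert_of_mem _ hy), h2 (mem_insert _ _)⟩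
  choose! nx h1 h2 using step
  let F : ℕ → P := fun n => Nat.rec ⟨⊥, by simp, bot_le⟩ (fun k F => nx F (e k)) n
  have hF : ∀ n, F (n + 1) = nx (F n) (e n) := fun n => rfl
  refine ⟨fun n => (F n).1, ?_, fun n => (F n).2.1, fun n => (F n).2.2, ?_⟩
  · refine monotone_nat_of_le_succ fun n => ?_
    rw [hF]
    exact h1 _ _ (heH n)
  · intro h hh
    have : h ∈ range e := by
      rw [← he]
      exact hh
    obtain ⟨n, rfl⟩ := this
    refine ⟨n + 1, ?_⟩
    change e n ∈ (F (n + 1)).1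
    rw [hF]
    exact h2 _ _ (heH n)

theorem HH_countable : (HH : Set GG).Countable := by
  have : (HH : Set GG) ⊆ ⋃ n, range fun a : (tower n).T => ii n (a, (1 : ℕ → C2)) := by
    rintro x ⟨n, a, _, rfl⟩
    exact mem_iUnion.mpr ⟨n, a, rfl⟩
  exact (countable_iUnion fun n => countable_range _).mono this

/-- the embedding of the discrete part -/
noncomputable def dd (n : ℕ) : (tower n).T →* GG :=
  (ii n).comp (MonoidHom.inl (tower n).T (ℕ → C2))

theorem dd_apply (n : ℕ) (a : (tower n).T) : dd n a = ii n (a, (1 : ℕ → C2)) := rfl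

theorem HH_lf : LF HH := by
  classical
  intro S hS hSH
  have h1 : ∀ x ∈ S, ∃ n, ∃ a ∈ (tower n).A, dd n a = x := by
    intro x hx
    obtain ⟨n, a, ha, h⟩ := hSH hx
    exact ⟨n, a, ha, h⟩
  choose! N a ha hax using h1
  let M : ℕ := hS.toFinset.sup N
  have h2 : ∀ x ∈ S, ∃ b ∈ (tower M).A, dd M b = x := by
    intro x hx
    have hle : N x ≤ M := Finset.le_sup (hS.mem_toFinset.mpr hx)
    obtain ⟨b, hb, h3, _⟩ := ii_lift hle (a x) (ha x hx)
    exact ⟨b, hb, h3.trans (hax x hx)⟩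
  let S' : Set (tower M).T := {b | b ∈ (tower M).A ∧ dd M b ∈ S}
  have hinj : Function.Injective (dd M) := by
    intro x y hxy
    exact congrArg Prod.fst (ii_inj M hxy)
  have hS' : S'.Finite := (hS.preimage hinj.injOn).subset fun b hb => hb.2
  obtain ⟨F, hF1, hF2, hF3⟩ := (tower M).lf S' hS' fun b hb => hb.1
  refine ⟨F.map (dd M), ?_, ?_, ?_⟩
  · rw [Subgroup.coe_map]
    exact hF1.image _
  · intro x hx
    obtain ⟨b, hb, h3⟩ := h2 x hx
    refine ⟨b, hF2 ⟨hb, ?_⟩, h3⟩
    rw [h3]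
    exact hx
  · rintro _ ⟨b, hb, rfl⟩
    exact ⟨M, b, hF3 hb, rfl⟩

section PingPong

variable (n : ℕ)

open Classical in
/-- the quotient map of a level to the free product -/
noncomputable def th (x : GG) : Dl (tower n).T :=
  if h : ∃ p : Nx (tower n).T × (ℕ → C2), ii (n + 1) p = x then h.choose.1.right else 1

theorem th_apply (p : Nx (tower n).T × (ℕ → C2)) : th n (ii (n + 1) p) = p.1.right := by
  classical
  unfold th
  have h : ∃ p' : Nx (tower n).T × (ℕ → C2), ii (n + 1) p' = ii (n + 1) p := ⟨p, rfl⟩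
  rw [dif_pos h]
  have := ii_inj (n + 1) h.choose_spec
  rw [this]

theorem th_mul {x y : GG} (hx : x ∈ Gn (n + 1)) (hy : y ∈ Gn (n + 1)) :
    th n (x * y) = th n x * th n y := by
  obtain ⟨p, rfl⟩ := hx
  obtain ⟨q, rfl⟩ := hy
  rw [← map_mul, th_apply, th_apply, th_apply]
  rfl

/-- representative of a right coset -/
noncomputable def cr (x : GG) : GG :=
  Quotient.out (Quotient.mk (QuotientGroup.rightRel (Gn (n + 1))) x)

theorem cr_mem (x : GG) : x * (cr n x)⁻¹ ∈ Gn (n + 1) := by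
  have h : (QuotientGroup.rightRel (Gn (n + 1))).r (cr n x) x := Quotient.mk_out x
  exact QuotientGroup.rightRel_apply.mp h

theorem cr_mul {y : GG} (hy : y ∈ Gn (n + 1)) (x : GG) : cr n (y * x) = cr n x := by
  unfold cr
  congr 1
  apply Quotient.sound
  refine QuotientGroup.rightRel_apply.mpr ?_
  rw [mul_inv_rev, mul_inv_cancel_left]
  exact inv_mem hy

/-- equivariant map to the free product -/
noncomputable def rr (x : GG) : Dl (tower n).T := th n (x * (cr n x)⁻¹)

theorem rr_mul {y : GG} (hy : y ∈ Gn (n + 1)) (x : GG) : rr n (y * x) = th n y * rr n x := by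
  unfold rr
  rw [cr_mul n hy, mul_assoc, th_mul n hy (cr_mem n x)]

theorem pp (n : ℕ) : PP (Gn n) (Kn n) := by
  obtain ⟨a, b, ha, hb, hab⟩ := (tower n).big
  refine ⟨⟨rr n ⁻¹' UU (tower n).T, Kn (n + 1),
    ii (n + 1) ((SemidirectProduct.inr (emb2 (tower n).T a) : Nx (tower n).T), (1 : ℕ → C2)),
    ii (n + 1) ((SemidirectProduct.inr (emb2 (tower n).T b) : Nx (tower n).T), (1 : ℕ → C2)),
    Kn_open (n + 1), ?_, ?_, ?_, ?_, ?_⟩⟩
  · intro u hu x
    obtain ⟨ε, rfl⟩ := Kn_le hu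
    rw [mem_preimage, mem_preimage, rr_mul n ⟨_, rfl⟩]
    have h1 : th n (ii (n + 1) ((1 : (tower (n + 1)).T), ε)) = 1 :=
      (th_apply n ((1 : Nx (tower n).T), ε)).trans rfl
    rw [h1, one_mul]
  · rintro _ ⟨⟨γ, ε⟩, rfl⟩ hK x hx
    have hγ : γ ≠ 1 := fun h => hK (mem_Kn.mpr h)
    have h2 : ii n (γ, ε) ∈ Gn (n + 1) := Gn_mono (Nat.le_succ n) ⟨_, rfl⟩
    rw [mem_preimage, rr_mul n h2]
    have h3 : th n (ii n (γ, ε)) = emb (tower n).T γ := by
      rw [← ii_step n γ ε]
      exact (th_apply n _).trans (io_wh_right _ _ _)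
    rw [h3]
    exact UU1 hγ hx
  · intro x hx
    rw [mem_preimage, rr_mul n ⟨_, rfl⟩]
    have h3 : th n (ii (n + 1) ((SemidirectProduct.inr (emb2 (tower n).T a) : Nx (tower n).T),
        (1 : ℕ → C2))) = emb2 (tower n).T a := (th_apply n _).trans rfl
    rw [h3]
    exact UU2 ha hx
  · intro x hx
    rw [mem_preimage, rr_mul n ⟨_, rfl⟩]
    have h3 : th n (ii (n + 1) ((SemidirectProduct.inr (emb2 (tower n).T b) : Nx (tower n).T),
        (1 : ℕ → C2))) = emb2 (tower n).T b := (th_apply n _).trans rfl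
    rw [h3]
    exact UU2 hb hx
  · intro x hx
    have e : (ii (n + 1) ((SemidirectProduct.inr (emb2 (tower n).T b) : Nx (tower n).T),
          (1 : ℕ → C2)))⁻¹ *
        ii (n + 1) ((SemidirectProduct.inr (emb2 (tower n).T a) : Nx (tower n).T),
          (1 : ℕ → C2)) =
        ii (n + 1) ((SemidirectProduct.inr (emb2 (tower n).T (b⁻¹ * a)) : Nx (tower n).T),
          (1 : ℕ → C2)) := by
      rw [← map_inv, ← map_mul]
      congr 1
      refine Prod.ext ?_ ?_
      · change (SemidirectProduct.inr (emb2 (tower n).T b) : Nx (tower n).T)⁻¹ *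
          SemidirectProduct.inr (emb2 (tower n).T a) =
          SemidirectProduct.inr (emb2 (tower n).T (b⁻¹ * a))
        rw [map_mul, map_mul, map_inv, map_inv]
        rfl
      · change (1 : ℕ → C2)⁻¹ * 1 = 1
        rw [inv_one, one_mul]
    rw [e, mem_preimage, rr_mul n ⟨_, rfl⟩]
    have h3 : th n (ii (n + 1) ((SemidirectProduct.inr (emb2 (tower n).T (b⁻¹ * a)) :
        Nx (tower n).T), (1 : ℕ → C2))) = emb2 (tower n).T (b⁻¹ * a) :=
      (th_apply n _).trans rfl
    rw [h3]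
    exact UU2 (fun h => hab (by rw [← inv_mul_eq_one.mp h])) hx

end PingPong

/-- a boundary with a free point -/
theorem GG_free : ∃ (E : Type) (_ : TopologicalSpace E) (_ : MulAction GG E), IsBoundary GG E ∧
    ∃ z : E, ∀ g : GG, g • z = z → g = 1 :=
  free_point Gn Kn Gn_mono Gn_all Gn_open Kn_open Kn_anti Kn_inter Kn_normal pp

theorem GG_not_simple [MeasurableSpace GG] [BorelSpace GG] (μ : Measure GG) [μ.IsHaarMeasure] :
    ¬ IsSimpleAlg (redCstar μ) := by
  obtain ⟨F, hF1, hF2, hF3, hF4⟩ := exhaust HH_lf HH_countable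
  exact not_simple μ (K := Gn 0) (K0 := Kn 0) (H := HH) (Gn_open 0) Gn0_compact (Kn_open 0)
    (Kn_compact 0) sig sig_mul sig_val HH_K0 odd_GG F (fun n => (hF2 n).toFinset)
    (fun n x => (hF2 n).mem_toFinset) hF1 hF3 hF4

end Pool.Agent.L5helper82.FP
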