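import Pool.Agent.L5helper82.FP.Boundary

set_option linter.unusedSectionVars false

open Topology Filter Set

namespace Pool.Agent.L5helper82.FP

section

variable (G : Type) [Group G] [TopologicalSpace G] [IsTopologicalGroup G]

/-- bounded functions on `G` that are left invariant under some open subgroup -/
def SV : Submodule ℝ (G → ℝ) where
  carrier := {f | (∃ B : ℝ, ∀ x, |f x| ≤ B) ∧
    ∃ U : Subgroup G, IsOpen (U : Set G) ∧ ∀ u ∈ U, ∀ x, f (u * x) = f x}
  zero_mem' := ⟨⟨0, by simp⟩, ⊤, by simp, by simp⟩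
  add_mem' := by
    rintro f f' ⟨⟨B, hB⟩, U, hU, hf⟩ ⟨⟨B', hB'⟩, U', hU', hf'⟩
    refine ⟨⟨B + B', fun x => (abs_add_le _ _).trans (add_le_add (hB x) (hB' x))⟩, U ⊓ U',
      hU.inter hU', fun u hu x => ?_⟩
    simp only [Pi.add_apply]
    rw [hf u hu.1, hf' u hu.2]
  smul_mem' := by
    rintro c f ⟨⟨B, hB⟩, U, hU, hf⟩
    refine ⟨⟨|c| * B, fun x => ?_⟩, U, hU, fun u hu x => ?_⟩
    · simp only [Pi.smul_apply, smul_eq_mul, abs_mul]
      exact mul_le_mul_of_nonneg_left (hB x) (abs_nonneg c)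
    · simp only [Pi.smul_apply, smul_eq_mul]
      rw [hf u hu x]

variable {G}

/-- translation -/
def tau (g : G) : SV G →ₗ[ℝ] SV G where
  toFun f := ⟨fun x => f.1 (g * x), by
    obtain ⟨⟨B, hB⟩, U, hU, hf⟩ := f.2
    refine ⟨⟨B, fun x => hB _⟩, U.comap (MulAut.conj g).toMonoidHom, ?_, fun u hu x => ?_⟩
    · have hc : Continuous fun x : G => g * x * g⁻¹ :=
        (continuous_const.mul continuous_id).mul continuous_const
      exact hU.preimage hc
    · have h1 : g * u * g⁻¹ ∈ U := hu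
      have h2 := hf _ h1 (g * x)
      change f.1 (g * (u * x)) = f.1 (g * x)
      rw [← h2]
      congr 1
      group⟩
  map_add' f f' := rfl
  map_smul' c f := rfl

theorem tau_apply (g : G) (f : SV G) (x : G) : (tau g f).1 x = f.1 (g * x) := rfl

theorem sys_tau : Sys (tau (G := G)) := by
  refine ⟨fun f => ?_, fun g h f => ?_, fun f g0 => ?_⟩
  · apply Subtype.ext
    funext x
    rw [tau_apply, one_mul]
  · apply Subtype.ext
    funext x
    rw [tau_apply, tau_apply, tau_apply, mul_assoc]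
  · obtain ⟨U, hU, hf⟩ := f.2.2
    have hc : Continuous fun x : G => x * g0⁻¹ := continuous_id.mul continuous_const
    have h1 : {x : G | x * g0⁻¹ ∈ U} ∈ 𝓝 g0 :=
      (hU.preimage hc).mem_nhds (by simp)
    filter_upwards [h1] with g hg
    apply Subtype.ext
    funext x
    rw [tau_apply, tau_apply]
    have := hf _ hg (g0 * x)
    rw [← this]
    congr 1
    group

variable (G)

/-- the constant function one -/
def oneSV : SV G := ⟨fun _ => 1, ⟨1, by simp⟩, ⊤, by simp, by simp⟩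

/-- means on the space `SV G` -/
def means : Set (SV G → ℝ) :=
  {m | IsLin m ∧ (∀ f : SV G, (∀ x, 0 ≤ f.1 x) → 0 ≤ m f) ∧ m (oneSV G) = 1}

variable {G}

theorem means_lin : ∀ m ∈ means G, IsLin m := fun _ hm => hm.1

theorem IsLin.sub {V : Type} [AddCommGroup V] [Module ℝ V] {m : V → ℝ} (h : IsLin m) (f g : V) :
    m (f - g) = m f - m g := by
  have h1 : m (-g) = - m g := by simpa using h.smul (-1) g
  rw [sub_eq_add_neg, h.add, h1, sub_eq_add_neg]

theorem means_mono {m : SV G → ℝ} (hm : m ∈ means G) {f f' : SV G} (h : ∀ x, f.1 x ≤ f'.1 x) :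
    m f ≤ m f' := by
  have := hm.2.1 (f' - f) (fun x => sub_nonneg.mpr (h x))
  rw [hm.1.sub] at this
  linarith

theorem means_compact : IsCompact (means G) := by
  have hb : ∀ f : SV G, ∃ B : ℝ, ∀ x, |f.1 x| ≤ B := fun f => f.2.1
  choose B hB using hb
  refine (isCompact_univ_pi fun f : SV G => isCompact_Icc (a := -B f) (b := B f)).of_isClosed_subset
    ?_ ?_
  · have : means G = ((⋂ f, ⋂ g, {m : SV G → ℝ | m (f + g) = m f + m g}) ∩
        (⋂ c : ℝ, ⋂ f, {m : SV G → ℝ | m (c • f) = c * m f})) ∩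
        ((⋂ f : SV G, ⋂ (_ : ∀ x, 0 ≤ f.1 x), {m : SV G → ℝ | 0 ≤ m f}) ∩
          {m : SV G → ℝ | m (oneSV G) = 1}) := by
      ext m
      simp only [means, Set.mem_inter_iff, Set.mem_iInter, Set.mem_ofPred_eq]
      constructor
      · intro h
        exact ⟨⟨h.1.add, h.1.smul⟩, h.2.1, h.2.2⟩
      · rintro ⟨⟨h1, h2⟩, h3, h4⟩
        exact ⟨⟨h1, h2⟩, h3, h4⟩
    rw [this]
    refine IsClosed.inter (IsClosed.inter ?_ ?_) (IsClosed.inter ?_ ?_)
    · exact isClosed_iInter fun f => isClosed_iInter fun g =>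
        isClosed_eq (continuous_apply _)
          (Continuous.add (f := fun m : SV G → ℝ => m f) (g := fun m : SV G → ℝ => m g)
            (continuous_apply _) (continuous_apply _))
    · exact isClosed_iInter fun c => isClosed_iInter fun f =>
        isClosed_eq (continuous_apply _)
          (Continuous.mul (f := fun _ : SV G → ℝ => c) (g := fun m : SV G → ℝ => m f)
            continuous_const (continuous_apply _))
    · exact isClosed_iInter fun f => isClosed_iInter fun _ =>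
        isClosed_le continuous_const (continuous_apply _)
    · exact isClosed_eq (continuous_apply _) continuous_const
  · intro m hm f _
    constructor
    · have : m (-(B f) • oneSV G) ≤ m f := means_mono hm fun x => by
        have := neg_le_of_abs_le (hB f x)
        change -(B f) * 1 ≤ f.1 x
        linarith
      rw [hm.1.smul, hm.2.2, mul_one] at this
      exact this
    · have : m f ≤ m ((B f) • oneSV G) := means_mono hm fun x => by
        have := le_of_abs_le (hB f x)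
        change f.1 x ≤ (B f) * 1
        linarith
      rw [hm.1.smul, hm.2.2, mul_one] at this
      exact this

theorem means_convex : Convex ℝ (means G) := by
  intro m1 h1 m2 h2 a b ha hb hab
  refine ⟨⟨?_, ?_⟩, ?_, ?_⟩
  · intro f g
    simp only [Pi.add_apply, Pi.smul_apply, smul_eq_mul, h1.1.add, h2.1.add]
    ring
  · intro c f
    simp only [Pi.add_apply, Pi.smul_apply, smul_eq_mul, h1.1.smul, h2.1.smul]
    ring
  · intro f hf
    simp only [Pi.add_apply, Pi.smul_apply, smul_eq_mul]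
    have := mul_nonneg ha (h1.2.1 f hf)
    have := mul_nonneg hb (h2.2.1 f hf)
    linarith
  · simp only [Pi.add_apply, Pi.smul_apply, smul_eq_mul, h1.2.2, h2.2.2]
    linarith

theorem means_nonempty : (means G).Nonempty :=
  ⟨fun f => f.1 1, ⟨fun _ _ => rfl, fun _ _ => rfl⟩, fun _ hf => hf 1, rfl⟩

theorem means_inv : ∀ g : G, ∀ m ∈ means G, ac tau g m ∈ means G := by
  intro g m hm
  refine ⟨⟨fun f f' => ?_, fun c f => ?_⟩, fun f hf => hm.2.1 _ fun x => hf _, hm.2.2⟩
  · simp only [ac, map_add]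
    exact hm.1.add _ _
  · simp only [ac, map_smul]
    exact hm.1.smul _ _

/-- The ping-pong property used below. -/
structure PP (Gn Kn : Subgroup G) : Prop where
  out : ∃ (U : Set G) (O : Subgroup G) (t t' : G), IsOpen (O : Set G) ∧
    (∀ u ∈ O, ∀ x, u * x ∈ U ↔ x ∈ U) ∧
    (∀ y ∈ Gn, y ∉ Kn → ∀ x, x ∉ U → y * x ∈ U) ∧
    (∀ x ∈ U, t * x ∉ U) ∧ (∀ x ∈ U, t' * x ∉ U) ∧ (∀ x ∈ U, t'⁻¹ * t * x ∉ U)

open Classical in
theorem moved {Gn Kn : Subgroup G} (h : PP Gn Kn) {m : SV G → ℝ} (hm : m ∈ means G) :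
    ∃ g : G, ∀ y ∈ Gn, ac tau y (ac tau g m) = ac tau g m → y ∈ Kn := by
  obtain ⟨U, O, t, t', hO, hOU, hpp, h1, h2, h3⟩ := h.out
  by_contra hn
  push Not at hn
  let f : SV G := ⟨fun x => if x ∈ U then 1 else 0,
    ⟨1, fun x => by dsimp only; split_ifs <;> simp⟩, O, hO, fun u hu x => by simp only [hOU u hu x]⟩
  have hhalf : ∀ g, 1 / 2 ≤ ac tau g m f := by
    intro g
    obtain ⟨y, hy, hfix, hyK⟩ := hn g
    have hz := means_inv g m hm
    have h4 : ac tau g m (oneSV G - f) ≤ ac tau g m (tau y f) := means_mono hz fun x => by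
      change 1 - (if x ∈ U then (1 : ℝ) else 0) ≤ if y * x ∈ U then (1 : ℝ) else 0
      by_cases hx : x ∈ U
      · simp only [hx, if_true]
        split_ifs <;> norm_num
      · simp only [hx, if_false, hpp y hy hyK x hx, if_true]
        norm_num
    rw [hz.1.sub, hz.2.2] at h4
    have h5 : ac tau g m (tau y f) = ac tau g m f := congrFun hfix f
    rw [h5] at h4
    linarith
  have e1 := hhalf 1
  have e2 := hhalf t⁻¹
  have e3 := hhalf t'⁻¹
  have e4 : m (tau 1 f + tau t⁻¹ f + tau t'⁻¹ f) ≤ m (oneSV G) := means_mono hm fun x => by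
    change (if 1 * x ∈ U then (1 : ℝ) else 0) + (if t⁻¹ * x ∈ U then (1 : ℝ) else 0)
      + (if t'⁻¹ * x ∈ U then (1 : ℝ) else 0) ≤ 1
    rw [one_mul]
    have a1 : ¬ (x ∈ U ∧ t⁻¹ * x ∈ U) := by
      rintro ⟨ha, hb⟩
      exact h1 _ hb (by simpa using ha)
    have a2 : ¬ (x ∈ U ∧ t'⁻¹ * x ∈ U) := by
      rintro ⟨ha, hb⟩
      exact h2 _ hb (by simpa using ha)
    have a3 : ¬ (t⁻¹ * x ∈ U ∧ t'⁻¹ * x ∈ U) := by
      rintro ⟨ha, hb⟩
      refine h3 _ ha ?_
      simpa [mul_assoc] using hb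
    by_cases b1 : x ∈ U <;> by_cases b2 : t⁻¹ * x ∈ U <;> by_cases b3 : t'⁻¹ * x ∈ U <;>
      simp_all
  rw [hm.1.add, hm.1.add, hm.2.2] at e4
  simp only [ac] at e1 e2 e3
  linarith

theorem free_point [T2Space G] [LocallyCompactSpace G] [SecondCountableTopology G]
    (Gn Kn : ℕ → Subgroup G) (hGmono : Monotone Gn) (hGall : ∀ x, ∃ n, x ∈ Gn n)
    (hGo : ∀ n, IsOpen (Gn n : Set G)) (hKo : ∀ n, IsOpen (Kn n : Set G)) (hKanti : Antitone Kn)
    (hK1 : ∀ x, (∀ n, x ∈ Kn n) → x = 1)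
    (hnorm : ∀ n, ∀ g ∈ Gn n, ∀ y ∈ Kn n, g * y * g⁻¹ ∈ Kn n)
    (hPP : ∀ n, PP (Gn n) (Kn n)) :
    ∃ (E : Type) (_ : TopologicalSpace E) (_ : MulAction G E), IsBoundary G E ∧
      ∃ z : E, ∀ g : G, g • z = z → g = 1 := by
  obtain ⟨E, hE1, hE2, hB, ι, hιC, hι⟩ := boundary_of_sys sys_tau (C := means G) means_lin
    means_compact means_convex means_nonempty means_inv
  refine ⟨E, hE1, hE2, hB, ?_⟩
  haveI := hB.compact
  haveI := hB.hausdorff
  haveI := hB.nonempty
  by_contra hn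
  push Not at hn
  have hopen : IsOpen ({1}ᶜ : Set G) := isOpen_compl_singleton
  haveI : LocallyCompactSpace ({1}ᶜ : Set G) := hopen.locallyCompactSpace
  let Cc : ℕ → Set G := fun i => Subtype.val '' (compactCovering ({1}ᶜ : Set G) i)
  have hCc : ∀ i, IsCompact (Cc i) := fun i =>
    (isCompact_compactCovering _ i).image continuous_subtype_val
  have hC1 : ∀ i, ∀ x ∈ Cc i, x ≠ 1 := by
    rintro i _ ⟨x, _, rfl⟩
    exact x.2
  have hCall : ∀ x : G, x ≠ 1 → ∃ i, x ∈ Cc i := by
    intro x hx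
    obtain ⟨i, hi⟩ := exists_mem_compactCovering (X := ({1}ᶜ : Set G)) ⟨x, hx⟩
    exact ⟨i, ⟨x, hx⟩, hi, rfl⟩
  let Df : ℕ → Set E := fun i => {z | ∃ x ∈ Cc i, x • z = z}
  have hDcl : ∀ i, IsClosed (Df i) := by
    intro i
    have h1 : IsCompact {p : G × E | p.1 ∈ Cc i ∧ p.1 • p.2 = p.2} := by
      have : {p : G × E | p.1 ∈ Cc i ∧ p.1 • p.2 = p.2} =
          (Cc i ×ˢ (univ : Set E)) ∩ {p : G × E | p.1 • p.2 = p.2} := by
        ext p
        simp
      rw [this]
      exact ((hCc i).prod isCompact_univ).inter_right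
        (isClosed_eq hB.continuous_action continuous_snd)
    have h2 : Df i = Prod.snd '' {p : G × E | p.1 ∈ Cc i ∧ p.1 • p.2 = p.2} := by
      ext z
      constructor
      · rintro ⟨x, hx, hz⟩
        exact ⟨(x, z), ⟨hx, hz⟩, rfl⟩
      · rintro ⟨⟨x, z'⟩, ⟨hx, hz⟩, rfl⟩
        exact ⟨x, hx, hz⟩
    rw [h2]
    exact (h1.image continuous_snd).isClosed
  have hDall : ⋃ i, Df i = univ := by
    rw [eq_univ_iff_forall]
    intro z
    obtain ⟨g, hgz, hg1⟩ := hn z
    obtain ⟨i, hi⟩ := hCall g hg1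
    exact mem_iUnion.mpr ⟨i, g, hi, hgz⟩
  obtain ⟨i, hi⟩ := nonempty_interior_of_iUnion_of_closed hDcl hDall
  -- translates of the interior cover
  have hcont : ∀ g : G, Continuous fun z : E => g • z := fun g =>
    hB.continuous_action.comp (continuous_const.prodMk continuous_id)
  obtain ⟨T, hT⟩ := isCompact_univ.elim_finite_subcover
    (fun g : G => (fun z : E => g • z) ⁻¹' interior (Df i))
    (fun g => isOpen_interior.preimage (hcont g))
    (by
      intro z _
      obtain ⟨w, ⟨g, rfl⟩, hw⟩ := (hB.minimal z).exists_mem_open isOpen_interior hi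
      exact mem_iUnion.mpr ⟨g, hw⟩)
  -- a level that works for everything
  choose N hN using hGall
  obtain ⟨n1, hn1⟩ := (hCc i).elim_directed_cover (fun n => (Gn n : Set G)) hGo
    (fun x _ => mem_iUnion.mpr ⟨N x, hN x⟩)
    (directed_of_isDirected_le fun a b hab => hGmono hab)
  obtain ⟨n2, hn2⟩ := (hCc i).elim_directed_cover (fun n => (Kn n : Set G)ᶜ)
    (fun n => (Subgroup.isClosed_of_isOpen _ (hKo n)).isOpen_compl)
    (fun x hx => by
      by_contra hne
      refine hC1 i x hx (hK1 x fun n => ?_)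
      by_contra hxn
      exact hne (mem_iUnion.mpr ⟨n, hxn⟩))
    (directed_of_isDirected_le fun a b hab => compl_subset_compl.mpr (hKanti hab))
  let M : ℕ := max (T.sup N) (max n1 n2)
  obtain ⟨z0⟩ := hB.nonempty
  obtain ⟨g, hg⟩ := moved (hPP M) (hιC z0)
  have hz : g • z0 ∈ (univ : Set E) := mem_univ _
  obtain ⟨a, haT, ha⟩ := mem_iUnion₂.mp (hT hz)
  have ha' : a • (g • z0) ∈ Df i := interior_subset ha
  obtain ⟨x, hx, hfix⟩ := ha'
  have haM : a ∈ Gn M := hGmono ((Finset.le_sup haT).trans (le_max_left _ _)) (hN a)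
  have hxM : x ∈ Gn M :=
    hGmono ((le_max_left _ _).trans (le_max_right _ _)) (hn1 hx)
  have hxK : x ∉ Kn M := fun h =>
    hn2 hx (hKanti ((le_max_right n1 n2).trans (le_max_right _ _)) h)
  have hy : a⁻¹ * x * a ∈ Kn M := by
    refine hg _ ((Gn M).mul_mem ((Gn M).mul_mem ((Gn M).inv_mem haM) hxM) haM) ?_
    rw [← hι g z0, ← hι]
    congr 1
    rw [mul_smul, mul_smul, hfix, inv_smul_smul]
  refine hxK ?_
  have := hnorm M a haM _ hy
  simpa [mul_assoc] using this

end

end Pool.Agent.L5helper82.FP
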