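import Mathlib

set_option linter.unusedSectionVars false

open Topology Filter Set

namespace Pool.Agent.L5helper82.FP

section State

variable {X : Type} [TopologicalSpace X]

/-- positive normalised linear functionals -/
structure IsState (ν : C(X, ℝ) → ℝ) : Prop where
  add : ∀ f g, ν (f + g) = ν f + ν g
  smul : ∀ (c : ℝ) f, ν (c • f) = c * ν f
  pos : ∀ f, 0 ≤ f → 0 ≤ ν f
  one : ν 1 = 1

namespace IsState

variable {ν : C(X, ℝ) → ℝ} (h : IsState ν)

include h

theorem zero : ν 0 = 0 := by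
  have := h.smul 0 0
  simpa using this

theorem neg (f : C(X, ℝ)) : ν (-f) = -ν f := by
  have := h.smul (-1) f
  simpa using this

theorem sub (f g : C(X, ℝ)) : ν (f - g) = ν f - ν g := by
  rw [sub_eq_add_neg, h.add, h.neg, sub_eq_add_neg]

theorem mono {f g : C(X, ℝ)} (hfg : f ≤ g) : ν f ≤ ν g := by
  have := h.pos (g - f) (sub_nonneg.mpr hfg)
  rw [h.sub] at this
  linarith

theorem sum {ι : Type*} (s : Finset ι) (F : ι → C(X, ℝ)) : ν (∑ i ∈ s, F i) = ∑ i ∈ s, ν (F i) := by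
  classical
  induction s using Finset.induction_on with
  | empty => simp [h.zero]
  | insert a s ha ih => rw [Finset.sum_insert ha, Finset.sum_insert ha, h.add, ih]

theorem le_norm [CompactSpace X] (f : C(X, ℝ)) : |ν f| ≤ ‖f‖ := by
  have h1 : ν (‖f‖ • (1 : C(X, ℝ))) = ‖f‖ := by rw [h.smul, h.one, mul_one]
  rw [abs_le]
  constructor
  · have : ν (-(‖f‖ • (1 : C(X, ℝ)))) ≤ ν f := by
      refine h.mono fun x => ?_
      have := f.neg_norm_le_apply x
      simpa using this
    rw [h.neg, h1] at this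
    exact this
  · rw [← h1]
    conv_rhs => rw [h1, ← h1]
    refine h.mono fun x => ?_
    have := f.apply_le_norm x
    simpa using this

end IsState

end State

section Dual

variable {V : Type} [AddCommGroup V] [Module ℝ V]

/-- linear functionals as plain functions -/
structure IsLin (m : V → ℝ) : Prop where
  add : ∀ f g, m (f + g) = m f + m g
  smul : ∀ (c : ℝ) f, m (c • f) = c * m f

theorem IsLin.sum {m : V → ℝ} (h : IsLin m) {ι : Type*} (s : Finset ι) (F : ι → V) :
    m (∑ i ∈ s, F i) = ∑ i ∈ s, m (F i) := by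
  classical
  have h0 : m 0 = 0 := by simpa using h.smul 0 0
  induction s using Finset.induction_on with
  | empty => simp [h0]
  | insert a s ha ih => rw [Finset.sum_insert ha, Finset.sum_insert ha, h.add, ih]

theorem dual_repr (l : (V → ℝ) →L[ℝ] ℝ) : ∃ f0 : V, ∀ m : V → ℝ, IsLin m → l m = m f0 := by
  classical
  have h1 : {m : V → ℝ | |l m| < 1} ∈ 𝓝 (0 : V → ℝ) := by
    have : ContinuousAt (fun m => |l m|) (0 : V → ℝ) := (l.continuous.abs).continuousAt
    have h2 := this.preimage_mem_nhds (t := Set.Iio 1) (by simp [Iio_mem_nhds])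
    exact h2
  rw [nhds_pi, Filter.mem_pi'] at h1
  obtain ⟨I, t, ht, hI⟩ := h1
  have hvan : ∀ m : V → ℝ, (∀ i ∈ I, m i = 0) → l m = 0 := by
    intro m hm
    by_contra hne
    have h3 : ((2 / |l m|) • m) ∈ {m : V → ℝ | |l m| < 1} := by
      refine hI fun i hi => ?_
      have : ((2 / |l m|) • m) i = 0 := by simp [hm i hi]
      rw [this]
      exact mem_of_mem_nhds (ht i)
    have h4 : |l m| ≠ 0 := abs_ne_zero.mpr hne
    simp only [Set.mem_ofPred_eq, map_smul, smul_eq_mul, abs_mul, abs_div, abs_abs] at h3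
    rw [div_mul_cancel₀ _ h4] at h3
    norm_num at h3
  refine ⟨∑ i ∈ I, l (Pi.single i 1) • i, fun m hm => ?_⟩
  have h5 := hvan (m - ∑ i ∈ I, m i • (Pi.single i (1 : ℝ) : V → ℝ)) (by
    intro j hj
    simp only [Pi.sub_apply, Finset.sum_apply, Pi.smul_apply, smul_eq_mul]
    rw [Finset.sum_eq_single j]
    · simp
    · intro b _ hb
      simp [Pi.single_apply, hb.symm]
    · intro h
      exact absurd hj h)
  rw [map_sub, map_sum, sub_eq_zero] at h5
  rw [h5, hm.sum]
  refine Finset.sum_congr rfl fun i _ => ?_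
  rw [map_smul, hm.smul, smul_eq_mul, mul_comm]

end Dual

section Glasner

variable {G V : Type} [Group G] [TopologicalSpace G] [AddCommGroup V] [Module ℝ V]

/-- A linear action (from the right) of `G` on `V` with locally constant orbit maps. -/
structure Sys (τ : G → V →ₗ[ℝ] V) : Prop where
  one : ∀ f, τ 1 f = f
  mul : ∀ g h f, τ (g * h) f = τ h (τ g f)
  loc : ∀ f g0, ∀ᶠ g in 𝓝 g0, τ g f = τ g0 f

/-- the dual action -/
def ac (τ : G → V →ₗ[ℝ] V) (g : G) (m : V → ℝ) : V → ℝ := fun f => m (τ g f)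

variable {τ : G → V →ₗ[ℝ] V} (hτ : Sys τ)

include hτ in
theorem ac_one (m : V → ℝ) : ac τ 1 m = m := by
  funext f
  simp [ac, hτ.one]

include hτ in
theorem ac_mul (g h : G) (m : V → ℝ) : ac τ (g * h) m = ac τ g (ac τ h m) := by
  funext f
  simp [ac, hτ.mul]

theorem ac_continuous (g : G) : Continuous (ac τ g) :=
  continuous_pi fun f => continuous_apply (τ g f)

include hτ in
theorem ac_jcont : Continuous fun p : G × (V → ℝ) => ac τ p.1 p.2 := by
  refine continuous_pi fun f => ?_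
  rw [continuous_iff_continuousAt]
  rintro ⟨g0, m0⟩
  have h1 : ∀ᶠ p : G × (V → ℝ) in 𝓝 (g0, m0), ac τ p.1 p.2 f = p.2 (τ g0 f) := by
    have := (continuous_fst.continuousAt (x := ((g0, m0) : G × (V → ℝ)))).eventually (hτ.loc f g0)
    filter_upwards [this] with p hp
    simp [ac, hp]
  refine ContinuousAt.congr (f := fun p : G × (V → ℝ) => p.2 (τ g0 f)) ?_
    (h1.mono fun p hp => hp.symm)
  exact ((continuous_apply (τ g0 f)).comp continuous_snd).continuousAt

variable {C : Set (V → ℝ)} (hCl : ∀ m ∈ C, IsLin m) (hCc : IsCompact C) (hCv : Convex ℝ C)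
  (hCn : C.Nonempty) (hCi : ∀ g, ∀ m ∈ C, ac τ g m ∈ C)

include hCc hCv hCn hCi in
theorem exists_minimal : ∃ D : Set (V → ℝ), D ⊆ C ∧ D.Nonempty ∧ IsClosed D ∧ Convex ℝ D ∧
    (∀ g, ∀ m ∈ D, ac τ g m ∈ D) ∧
    ∀ D' ⊆ D, D'.Nonempty → IsClosed D' → Convex ℝ D' → (∀ g, ∀ m ∈ D', ac τ g m ∈ D') →
      D' = D := by
  let S : Set (Set (V → ℝ)) := {D | D ⊆ C ∧ D.Nonempty ∧ IsClosed D ∧ Convex ℝ D ∧
    (∀ g, ∀ m ∈ D, ac τ g m ∈ D)}
  have hz := zorn_superset_nonempty S (by
    intro c hcS hch hcn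
    refine ⟨⋂₀ c, ⟨?_, ?_, ?_, ?_, ?_⟩, fun s hs => sInter_subset_of_mem hs⟩
    · obtain ⟨d, hd⟩ := hcn
      exact (sInter_subset_of_mem hd).trans (hcS hd).1
    · haveI : Nonempty c := hcn.to_subtype
      refine IsCompact.nonempty_sInter_of_directed_nonempty_isCompact_isClosed ?_ ?_ ?_ ?_
      · intro a ha b hb
        rcases hch.total ha hb with h | h
        · exact ⟨a, ha, Subset.rfl, h⟩
        · exact ⟨b, hb, h, Subset.rfl⟩
      · intro U hU
        exact (hcS hU).2.1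
      · intro U hU
        exact hCc.of_isClosed_subset (hcS hU).2.2.1 (hcS hU).1
      · intro U hU
        exact (hcS hU).2.2.1
    · exact isClosed_sInter fun U hU => (hcS hU).2.2.1
    · exact convex_sInter fun U hU => (hcS hU).2.2.2.1
    · intro g m hm U hU
      exact (hcS hU).2.2.2.2 g m (hm U hU)) C ⟨Subset.rfl, hCn, hCc.isClosed, hCv, hCi⟩
  obtain ⟨D, _, hD⟩ := hz
  refine ⟨D, hD.prop.1, hD.prop.2.1, hD.prop.2.2.1, hD.prop.2.2.2.1, hD.prop.2.2.2.2, ?_⟩
  intro D' hD' hn hc hv hi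
  have : D' ∈ S := ⟨hD'.trans hD.prop.1, hn, hc, hv, hi⟩
  exact Subset.antisymm hD' (hD.le_of_le this hD')

/-- evaluation at a vector, on a set of functionals -/
def ev (E : Set (V → ℝ)) (f : V) : C(E, ℝ) :=
  ⟨fun e => e.1 f, (continuous_apply f).comp continuous_subtype_val⟩

variable {D E : Set (V → ℝ)} (hDl : ∀ m ∈ D, IsLin m) (hDc : IsClosed D) (hDv : Convex ℝ D)
  (hED : E ⊆ D)

include hDl hED in
theorem ev_lin (ν : C(E, ℝ) → ℝ) (hν : IsState ν) : IsLin fun f => ν (ev E f) := by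
  constructor
  · intro f g
    rw [← hν.add]
    congr 1
    ext e
    exact (hDl e.1 (hED e.2)).add f g
  · intro c f
    rw [← hν.smul]
    congr 1
    ext e
    exact (hDl e.1 (hED e.2)).smul c f

include hDl hDc hDv hED in
theorem bary_mem (ν : C(E, ℝ) → ℝ) (hν : IsState ν) : (fun f => ν (ev E f)) ∈ D := by
  by_contra hn
  obtain ⟨l, u, h1, h2⟩ := geometric_hahn_banach_closed_point hDv hDc hn
  obtain ⟨f0, hf0⟩ := dual_repr l
  rw [hf0 _ (ev_lin hDl hED ν hν)] at h2
  have h3 : ν (ev E f0) ≤ ν (u • (1 : C(E, ℝ))) := by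
    refine hν.mono fun e => ?_
    have h4 := h1 e.1 (hED e.2)
    rw [hf0 _ (hDl e.1 (hED e.2))] at h4
    have h5 : (ev E f0) e ≤ u := h4.le
    simpa using h5
  rw [hν.smul, hν.one, mul_one] at h3
  exact absurd h2 (not_lt.mpr h3)

variable {x : V → ℝ} (hx : x ∈ D.extremePoints ℝ) {ν : C(E, ℝ) → ℝ} (hν : IsState ν)
  (hνx : ∀ f, ν (ev E f) = x f)

include hDl hDc hDv hED hx hν hνx in
theorem stepA [CompactSpace E] (k : C(E, ℝ)) (hk0 : 0 ≤ k) (hk : ∀ e, k e ≤ 1 / 2) (f : V) :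
    ν (k * ev E f) = ν k * x f := by
  have ha0 : 0 ≤ ν k := hν.pos k hk0
  have ha1 : ν k ≤ 1 / 2 := by
    have : ν k ≤ ν ((1 / 2 : ℝ) • (1 : C(E, ℝ))) := hν.mono fun e => by
      simpa using hk e
    rwa [hν.smul, hν.one, mul_one] at this
  rcases ha0.eq_or_lt with ha | ha
  · have h1 : ν (k * ev E f) ≤ ν (‖ev E f‖ • k) := hν.mono fun e => by
      have h2 := (ev E f).apply_le_norm e
      have h3 : 0 ≤ k e := hk0 e
      have h4 : (ev E f) e * k e ≤ ‖ev E f‖ * k e := mul_le_mul_of_nonneg_right h2 h3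
      simpa [mul_comm] using h4
    have h1' : ν (-(‖ev E f‖ • k)) ≤ ν (k * ev E f) := hν.mono fun e => by
      have h2 := (ev E f).neg_norm_le_apply e
      have h3 : 0 ≤ k e := hk0 e
      have h4 : -‖ev E f‖ * k e ≤ (ev E f) e * k e := mul_le_mul_of_nonneg_right h2 h3
      simpa [mul_comm] using h4
    rw [hν.neg, hν.smul, ← ha, mul_zero] at h1'
    rw [hν.smul, ← ha, mul_zero] at h1
    rw [← ha, zero_mul]
    linarith
  · have hs1 : IsState fun j => (ν k)⁻¹ * ν (k * j) := by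
      constructor
      · intro f g
        rw [mul_add, hν.add, mul_add]
      · intro c f
        rw [mul_smul_comm, hν.smul]
        ring
      · intro f hf
        exact mul_nonneg (inv_nonneg.mpr ha0) (hν.pos _ (mul_nonneg hk0 hf))
      · rw [mul_one]
        exact inv_mul_cancel₀ ha.ne'
    have h1a : 0 < 1 - ν k := by linarith
    have hk1 : (0 : C(E, ℝ)) ≤ 1 - k := fun e => by
      have := hk e
      change (0 : ℝ) ≤ 1 - k e
      linarith
    have hs2 : IsState fun j => (1 - ν k)⁻¹ * ν ((1 - k) * j) := by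
      constructor
      · intro f g
        rw [mul_add, hν.add, mul_add]
      · intro c f
        rw [mul_smul_comm, hν.smul]
        ring
      · intro f hf
        exact mul_nonneg (inv_nonneg.mpr h1a.le) (hν.pos _ (mul_nonneg hk1 hf))
      · rw [mul_one, hν.sub, hν.one]
        exact inv_mul_cancel₀ h1a.ne'
    have hb1 := bary_mem hDl hDc hDv hED _ hs1
    have hb2 := bary_mem hDl hDc hDv hED _ hs2
    have hseg : x ∈ openSegment ℝ (fun f => (ν k)⁻¹ * ν (k * ev E f))
        (fun f => (1 - ν k)⁻¹ * ν ((1 - k) * ev E f)) := by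
      refine ⟨ν k, 1 - ν k, ha, h1a, by ring, ?_⟩
      funext f
      simp only [Pi.add_apply, Pi.smul_apply, smul_eq_mul]
      rw [mul_inv_cancel_left₀ ha.ne', mul_inv_cancel_left₀ h1a.ne', ← hνx f, ← hν.add]
      congr 1
      ring
    have h3 := hx.2 hb1 hb2 hseg
    have h4 := congrFun h3 f
    rw [← h4, mul_inv_cancel_left₀ ha.ne']

include hDl hDc hDv hED hx hν hνx in
theorem stepA' [CompactSpace E] (k : C(E, ℝ)) (hk0 : 0 ≤ k) (f : V) :
    ν (k * ev E f) = ν k * x f := by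
  have hc : (0 : ℝ) < (2 * (‖k‖ + 1))⁻¹ := by positivity
  have h := stepA hDl hDc hDv hED hx hν hνx ((2 * (‖k‖ + 1))⁻¹ • k)
    (fun e => by
      have : 0 ≤ k e := hk0 e
      change (0 : ℝ) ≤ (2 * (‖k‖ + 1))⁻¹ * k e
      positivity)
    (fun e => by
      have h1 : k e ≤ ‖k‖ := k.apply_le_norm e
      change (2 * (‖k‖ + 1))⁻¹ * k e ≤ 1 / 2
      rw [inv_mul_le_iff₀ (by positivity)]
      linarith) f
  rw [smul_mul_assoc, hν.smul, hν.smul, mul_assoc] at h
  exact mul_left_cancel₀ hc.ne' h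

include hDl hDc hDv hED hx hν hνx in
theorem stepA'' [CompactSpace E] (k : C(E, ℝ)) (f : V) :
    ν (k * ev E f) = ν k * x f := by
  have h := stepA' hDl hDc hDv hED hx hν hνx (k + ‖k‖ • (1 : C(E, ℝ)))
    (fun e => by
      have h1 := k.neg_norm_le_apply e
      change (0 : ℝ) ≤ k e + ‖k‖ * 1
      linarith) f
  rw [add_mul, hν.add, hν.add, smul_mul_assoc, one_mul, hν.smul, hν.smul, hν.one, hνx] at h
  linarith

include hDl hDc hDv hED hx hν hνx in
theorem stepB [CompactSpace E] (f : V) :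
    ν ((ev E f - x f • (1 : C(E, ℝ))) * (ev E f - x f • (1 : C(E, ℝ)))) = 0 := by
  have h1 := stepA'' hDl hDc hDv hED hx hν hνx (ev E f - x f • (1 : C(E, ℝ))) f
  have h2 : ν (ev E f - x f • (1 : C(E, ℝ))) = 0 := by
    rw [hν.sub, hν.smul, hν.one, hνx]
    ring
  rw [mul_sub, hν.sub, h1, h2, mul_smul_comm, mul_one, hν.smul, h2]
  ring

include hDl hDc hDv hED hx hν hνx in
theorem ext_state [CompactSpace E] (hxE : x ∈ E) (h : C(E, ℝ)) (h0 : 0 ≤ h)
    (hhx : h ⟨x, hxE⟩ = 0) : ν h = 0 := by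
  refine le_antisymm ?_ (hν.pos h h0)
  refine le_of_forall_pos_le_add fun ε hε => ?_
  rw [zero_add]
  have hScl : IsClosed {e : E | ε ≤ h e} := isClosed_le continuous_const h.continuous
  have hSc : IsCompact {e : E | ε ≤ h e} := hScl.isCompact
  obtain ⟨T, hT⟩ := hSc.elim_finite_subcover (fun i : V => {e : E | e.1 i ≠ x i})
    (fun i => by
      have : Continuous fun e : E => e.1 i := (continuous_apply i).comp continuous_subtype_val
      exact isOpen_ne_fun this continuous_const)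
    (by
      intro e he
      rw [mem_iUnion]
      by_contra hn
      push Not at hn
      have : e = ⟨x, hxE⟩ := Subtype.ext (funext fun i => by simpa using hn i)
      have he' : ε ≤ h e := he
      rw [this, hhx] at he'
      exact absurd hε (not_lt.mpr he'))
  let Q : C(E, ℝ) := ∑ i ∈ T, (ev E i - x i • (1 : C(E, ℝ))) * (ev E i - x i • (1 : C(E, ℝ)))
  have hQe : ∀ e, Q e = ∑ i ∈ T, (e.1 i - x i) * (e.1 i - x i) := by
    intro e
    simp [Q, ev]
  have hQ0 : ∀ e, 0 ≤ Q e := fun e => by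
    rw [hQe]
    exact Finset.sum_nonneg fun i _ => mul_self_nonneg _
  have hQpos : ∀ e ∈ {e : E | ε ≤ h e}, 0 < Q e := by
    intro e he
    obtain ⟨i, hiT, hi⟩ := mem_iUnion₂.mp (hT he)
    rw [hQe]
    refine Finset.sum_pos' (fun i _ => mul_self_nonneg _) ⟨i, hiT, ?_⟩
    have : e.1 i - x i ≠ 0 := sub_ne_zero.mpr hi
    exact mul_self_pos.mpr this
  obtain ⟨q, hq0, hq⟩ := hSc.exists_forall_le' Q.continuous.continuousOn hQpos
  have hνQ : ν Q = 0 := by
    rw [hν.sum]
    exact Finset.sum_eq_zero fun i _ => stepB hDl hDc hDv hED hx hν hνx i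
  have hle : h ≤ ε • (1 : C(E, ℝ)) + (‖h‖ / q) • Q := by
    intro e
    change h e ≤ ε * 1 + ‖h‖ / q * Q e
    by_cases he : ε ≤ h e
    · have h1 : h e ≤ ‖h‖ := h.apply_le_norm e
      have h2 : ‖h‖ ≤ ‖h‖ / q * Q e := by
        rw [div_mul_eq_mul_div, le_div_iff₀ hq0]
        exact mul_le_mul_of_nonneg_left (hq e he) (norm_nonneg h)
      linarith
    · push Not at he
      have h2 : 0 ≤ ‖h‖ / q * Q e := mul_nonneg (div_nonneg (norm_nonneg h) hq0.le) (hQ0 e)
      linarith
  have := hν.mono hle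
  rw [hν.add, hν.smul, hν.smul, hν.one, hνQ] at this
  linarith

theorem isClosed_state {X : Type} [TopologicalSpace X] :
    IsClosed {ν : C(X, ℝ) → ℝ | IsState ν} := by
  have : {ν : C(X, ℝ) → ℝ | IsState ν} =
      (⋂ f, ⋂ g, {ν : C(X, ℝ) → ℝ | ν (f + g) = ν f + ν g}) ∩
      ((⋂ c : ℝ, ⋂ f, {ν : C(X, ℝ) → ℝ | ν (c • f) = c * ν f}) ∩
      ((⋂ f, ⋂ (_ : 0 ≤ f), {ν : C(X, ℝ) → ℝ | 0 ≤ ν f}) ∩ {ν : C(X, ℝ) → ℝ | ν 1 = 1})) := by
    ext ν
    simp only [Set.mem_inter_iff, Set.mem_iInter, Set.mem_ofPred_eq]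
    constructor
    · intro h
      exact ⟨h.add, h.smul, h.pos, h.one⟩
    · rintro ⟨h1, h2, h3, h4⟩
      exact ⟨h1, h2, h3, h4⟩
  rw [this]
  refine IsClosed.inter ?_ (IsClosed.inter ?_ (IsClosed.inter ?_ ?_))
  · exact isClosed_iInter fun f => isClosed_iInter fun g =>
      isClosed_eq (continuous_apply _)
        (Continuous.add (f := fun ν : C(X, ℝ) → ℝ => ν f) (g := fun ν : C(X, ℝ) → ℝ => ν g)
          (continuous_apply _) (continuous_apply _))
  · exact isClosed_iInter fun c => isClosed_iInter fun f =>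
      isClosed_eq (continuous_apply _)
        (Continuous.mul (f := fun _ : C(X, ℝ) → ℝ => c) (g := fun ν : C(X, ℝ) → ℝ => ν f)
          continuous_const (continuous_apply _))
  · exact isClosed_iInter fun f => isClosed_iInter fun _ =>
      isClosed_le continuous_const (continuous_apply _)
  · exact isClosed_eq (continuous_apply _) continuous_const

variable (hEi : ∀ g, ∀ m ∈ E, ac τ g m ∈ E)

/-- the action on `E` -/
def acE (hEi : ∀ g, ∀ m ∈ E, ac τ g m ∈ E) (g : G) : C(E, E) :=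
  ⟨fun e => ⟨ac τ g e.1, hEi g e.1 e.2⟩,
    ((ac_continuous g).comp continuous_subtype_val).subtype_mk _⟩

include hτ in
theorem acE_mul (k : C(E, ℝ)) (g g' : G) :
    (k.comp (acE hEi g')).comp (acE hEi g) = k.comp (acE hEi (g' * g)) := by
  ext e
  change k _ = k _
  congr 1
  exact Subtype.ext (ac_mul hτ g' g e.1).symm

include hτ in
theorem acE_one (k : C(E, ℝ)) : k.comp (acE hEi 1) = k := by
  ext e
  change k _ = k _
  congr 1
  exact Subtype.ext (ac_one hτ e.1)

include hτ in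
theorem ev_acE (g : G) (f : V) : (ev E f).comp (acE hEi g) = ev E (τ g f) := by
  ext e
  rfl

include hτ hDl hDc hDv hED hx in
theorem main_claim [CompactSpace E]
    (hmin : ∀ D' ⊆ D, D'.Nonempty → IsClosed D' → Convex ℝ D' → (∀ g, ∀ m ∈ D', ac τ g m ∈ D') →
      D' = D) (hxE : x ∈ E) (μ : C(E, ℝ) → ℝ) (hμ : IsState μ) (h : C(E, ℝ)) (h0 : 0 ≤ h)
    (hhx : h ⟨x, hxE⟩ = 0) (ε : ℝ) (hε : 0 < ε) : ∃ g, μ (h.comp (acE hEi g)) < ε := by
  by_contra hn
  push Not at hn
  let M : Set (C(E, ℝ) → ℝ) := {ν | IsState ν ∧ ∀ g, ε ≤ ν (h.comp (acE hEi g))}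
  have hMcl : IsClosed M := by
    have : M = {ν : C(E, ℝ) → ℝ | IsState ν} ∩ ⋂ g, {ν | ε ≤ ν (h.comp (acE hEi g))} := by
      ext ν
      simp only [M, Set.mem_inter_iff, Set.mem_iInter, Set.mem_ofPred_eq]
    rw [this]
    exact isClosed_state.inter (isClosed_iInter fun g =>
      isClosed_le continuous_const (continuous_apply _))
  have hMc : IsCompact M := by
    refine (isCompact_univ_pi fun k : C(E, ℝ) => isCompact_Icc (a := -‖k‖) (b := ‖k‖)).of_isClosed_subset
      hMcl fun ν hν' => ?_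
    intro k _
    exact abs_le.mp (hν'.1.le_norm k)
  have hMv : Convex ℝ M := by
    intro ν1 h1 ν2 h2 a b ha hb hab
    refine ⟨⟨?_, ?_, ?_, ?_⟩, ?_⟩
    · intro f g
      simp only [Pi.add_apply, Pi.smul_apply, smul_eq_mul, h1.1.add, h2.1.add]
      ring
    · intro c f
      simp only [Pi.add_apply, Pi.smul_apply, smul_eq_mul, h1.1.smul, h2.1.smul]
      ring
    · intro f hf
      simp only [Pi.add_apply, Pi.smul_apply, smul_eq_mul]
      have := mul_nonneg ha (h1.1.pos f hf)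
      have := mul_nonneg hb (h2.1.pos f hf)
      linarith
    · simp only [Pi.add_apply, Pi.smul_apply, smul_eq_mul, h1.1.one, h2.1.one]
      linarith
    · intro g
      simp only [Pi.add_apply, Pi.smul_apply, smul_eq_mul]
      have e1 := mul_le_mul_of_nonneg_left (h1.2 g) ha
      have e2 := mul_le_mul_of_nonneg_left (h2.2 g) hb
      have : ε = a * ε + b * ε := by rw [← add_mul, hab, one_mul]
      linarith
  let b : (C(E, ℝ) → ℝ) → (V → ℝ) := fun ν f => ν (ev E f)
  have hbc : Continuous b := continuous_pi fun f => continuous_apply _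
  have hbM : b '' M = D := by
    refine hmin _ ?_ ?_ ?_ ?_ ?_
    · rintro _ ⟨ν, hν', rfl⟩
      exact bary_mem hDl hDc hDv hED ν hν'.1
    · exact ⟨b μ, μ, ⟨hμ, hn⟩, rfl⟩
    · exact (hMc.image hbc).isClosed
    · rintro _ ⟨ν1, h1, rfl⟩ _ ⟨ν2, h2, rfl⟩ a c ha hc hac
      exact ⟨a • ν1 + c • ν2, hMv h1 h2 ha hc hac, rfl⟩
    · rintro g _ ⟨ν', hν', rfl⟩
      refine ⟨fun k => ν' (k.comp (acE hEi g)), ⟨⟨?_, ?_, ?_, ?_⟩, ?_⟩, ?_⟩
      · intro f k
        exact hν'.1.add (f.comp (acE hEi g)) (k.comp (acE hEi g))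
      · intro c f
        exact hν'.1.smul c (f.comp (acE hEi g))
      · intro f hf
        refine hν'.1.pos (f.comp (acE hEi g)) fun e => ?_
        exact hf (acE hEi g e)
      · exact hν'.1.one
      · intro g'
        change ε ≤ ν' ((h.comp (acE hEi g')).comp (acE hEi g))
        rw [acE_mul hτ]
        exact hν'.2 _
      · funext f
        change ν' _ = ν' (ev E (τ g f))
        rw [ev_acE hτ]
  have hxD : x ∈ D := hx.1
  rw [← hbM] at hxD
  obtain ⟨ν', hν', hb'⟩ := hxD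
  have h1 := ext_state hDl hDc hDv hED hx hν'.1 (fun f => congrFun hb' f) hxE h h0 hhx
  have h2 := hν'.2 1
  rw [acE_one hτ, h1] at h2
  exact absurd hε (not_lt.mpr h2)

end Glasner

end Pool.Agent.L5helper82.FP
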