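import Pool.Agent.L5helper82.FP.Tower
import Pool.Agent.L5helper82.FP.Free

set_option linter.unusedSectionVars false

open Set Topology Filter

namespace Pool.Agent.L5helper82.FP

/-- canonical map of a level -/
noncomputable abbrev ii (n : ℕ) : Lv n →* GG := im jn n

theorem ii_inj (n : ℕ) : Function.Injective (ii n) := im_inj jn (fun n => (jn_emb n).injective) n

theorem ii_emb (n : ℕ) : IsOpenEmbedding (ii n) := im_openEmb jn jn_emb n

theorem ii_surj (x : GG) : ∃ n γ ε, ii n (γ, ε) = x := by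
  obtain ⟨n, ⟨γ, ε⟩, h⟩ := im_surj jn x
  exact ⟨n, γ, ε, h⟩

theorem ii_step (n : ℕ) (γ : (tower n).T) (ε : ℕ → C2) :
    ii (n + 1) (io (tower n).T γ * wh (tower n).T (ε 0), fun k => ε (k + 1)) = ii n (γ, ε) :=
  im_succ jn n (γ, ε)

theorem ii_step1 (n : ℕ) (γ : (tower n).T) :
    ii (n + 1) (io (tower n).T γ * wh (tower n).T 1, (1 : ℕ → C2)) = ii n (γ, (1 : ℕ → C2)) :=
  im_succ jn n (γ, 1)

theorem ii_lift {n m : ℕ} (h : n ≤ m) : ∀ a ∈ (tower n).A, ∃ b ∈ (tower m).A,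
    ii m (b, (1 : ℕ → C2)) = ii n (a, (1 : ℕ → C2)) ∧ (tower m).s b = (tower n).s a := by
  induction m, h using Nat.le_induction with
  | base => exact fun a ha => ⟨a, ha, rfl, rfl⟩
  | succ m hm ih =>
    intro a ha
    obtain ⟨b, hb, h1, h2⟩ := ih a ha
    refine ⟨io (tower m).T b * wh (tower m).T 1, mem_AN.mpr ⟨hb, rfl⟩, ?_, ?_⟩
    · rw [ii_step1, h1]
    · rw [← h2]
      change sN (tower m).s _ = _
      rw [map_mul, sN_io, sN_wh, mul_one]

theorem mem_down (k : ℕ) : ∀ (n : ℕ) (γ : (tower n).T) (ε : ℕ → C2) (m : ℕ), m = n + k →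
    (∃ a ∈ (tower m).A, ii m (a, (1 : ℕ → C2)) = ii n (γ, ε)) → γ ∈ (tower n).A ∧ ε = 1 := by
  induction k with
  | zero =>
    rintro n γ ε m rfl ⟨a, ha, h⟩
    have := ii_inj _ h
    have h1 : a = γ := congrArg Prod.fst this
    have h2 : (1 : ℕ → C2) = ε := congrArg Prod.snd this
    exact ⟨h1 ▸ ha, h2.symm⟩
  | succ k ih =>
    rintro n γ ε m hm ⟨a, ha, h⟩
    rw [← ii_step n γ ε] at h
    obtain ⟨h1, h2⟩ := ih (n + 1) _ _ m (by omega) ⟨a, ha, h⟩
    have h1' : io (tower n).T γ * wh (tower n).T (ε 0) ∈ AN (tower n).A := h1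
    obtain ⟨h3, h4⟩ := mem_AN.mp h1'
    refine ⟨h3, funext fun j => ?_⟩
    cases j with
    | zero => exact h4
    | succ j => exact congrFun h2 j

/-- the discrete amenable subgroup -/
def HH : Subgroup GG where
  carrier := {x | ∃ n, ∃ a ∈ (tower n).A, ii n (a, (1 : ℕ → C2)) = x}
  one_mem' := ⟨0, 1, one_mem _, map_one (ii 0)⟩
  mul_mem' := by
    rintro _ _ ⟨n, a, ha, rfl⟩ ⟨m, b, hb, rfl⟩
    obtain ⟨a', ha', h1, _⟩ := ii_lift (le_max_left n m) a ha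
    obtain ⟨b', hb', h2, _⟩ := ii_lift (le_max_right n m) b hb
    refine ⟨max n m, a' * b', mul_mem ha' hb', ?_⟩
    rw [← h1, ← h2, ← map_mul]
    congr 1
  inv_mem' := by
    rintro _ ⟨n, a, ha, rfl⟩
    refine ⟨n, a⁻¹, inv_mem ha, ?_⟩
    rw [← map_inv]
    congr 1
    exact Prod.ext rfl inv_one.symm

theorem mem_HH {n : ℕ} {γ : (tower n).T} {ε : ℕ → C2} :
    ii n (γ, ε) ∈ HH ↔ γ ∈ (tower n).A ∧ ε = 1 := by
  constructor
  · rintro ⟨m, a, ha, h⟩
    obtain ⟨b, hb, h1, _⟩ := ii_lift (le_max_left m n) a ha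
    obtain ⟨k, hk⟩ := Nat.exists_eq_add_of_le (le_max_right m n)
    exact mem_down k n γ ε (max m n) hk ⟨b, hb, h1.trans h⟩
  · rintro ⟨h, rfl⟩
    exact ⟨n, γ, h, rfl⟩

open Classical in
/-- the sign character -/
noncomputable def sig (x : GG) : ℂ :=
  if ∃ n, ∃ a ∈ (tower n).A, ii n (a, (1 : ℕ → C2)) = x ∧ (tower n).s a ≠ 1 then -1 else 1

open Classical in
theorem sig_eq {n : ℕ} {a : (tower n).T} (ha : a ∈ (tower n).A) :
    sig (ii n (a, (1 : ℕ → C2))) = if (tower n).s a = 1 then 1 else -1 := by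
  unfold sig
  by_cases h : (tower n).s a = 1
  · rw [if_pos h, if_neg]
    rintro ⟨m, b, hb, h1, h2⟩
    obtain ⟨a', ha', h3, h4⟩ := ii_lift (le_max_left n m) a ha
    obtain ⟨b', hb', h5, h6⟩ := ii_lift (le_max_right n m) b hb
    have h7 : ii (max n m) (a', (1 : ℕ → C2)) = ii (max n m) (b', (1 : ℕ → C2)) := by
      rw [h3, h5, h1]
    have h8 : a' = b' := congrArg Prod.fst (ii_inj _ h7)
    apply h2
    rw [← h6, ← h8, h4, h]
  · rw [if_neg h, if_pos ⟨n, a, ha, rfl, h⟩]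

theorem sig_mul : ∀ a ∈ HH, ∀ b ∈ HH, sig (a * b) = sig a * sig b := by
  classical
  rintro _ ⟨n, a, ha, rfl⟩ _ ⟨m, b, hb, rfl⟩
  obtain ⟨a', ha', h1, _⟩ := ii_lift (le_max_left n m) a ha
  obtain ⟨b', hb', h2, _⟩ := ii_lift (le_max_right n m) b hb
  rw [← h1, ← h2, ← map_mul]
  have e : ((a', (1 : ℕ → C2)) * (b', (1 : ℕ → C2)) : Lv (max n m)) = (a' * b', 1) :=
    Prod.ext rfl (mul_one _)
  rw [e, sig_eq ha', sig_eq hb', sig_eq (mul_mem ha' hb'), map_mul]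
  have key : ∀ x y : C2, (if x * y = 1 then (1 : ℂ) else -1) =
      (if x = 1 then 1 else -1) * (if y = 1 then 1 else -1) := by
    intro x y
    have hx : x = 1 ∨ x = Multiplicative.ofAdd 1 := by
      revert x
      decide
    have hy : y = 1 ∨ y = Multiplicative.ofAdd 1 := by
      revert y
      decide
    have hne : (Multiplicative.ofAdd 1 : C2) ≠ 1 := by decide
    have hmul : (Multiplicative.ofAdd 1 : C2) * Multiplicative.ofAdd 1 = 1 := by decide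
    rcases hx with rfl | rfl <;> rcases hy with rfl | rfl
    · simp
    · simp [hne]
    · simp [hne]
    · rw [hmul]
      simp [hne]
  exact key _ _

theorem sig_val : ∀ a ∈ HH, sig a = 1 ∨ sig a = -1 := by
  intro a _
  unfold sig
  split_ifs
  · right; rfl
  · left; rfl

/-- the large open subgroups -/
noncomputable def Gn (n : ℕ) : Subgroup GG := (ii n).range

/-- the small compact open subgroups -/
noncomputable def Kn (n : ℕ) : Subgroup GG := (Subgroup.prod (⊥ : Subgroup (tower n).T)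
  (⊤ : Subgroup (ℕ → C2))).map (ii n)

theorem mem_Kn {n : ℕ} {γ : (tower n).T} {ε : ℕ → C2} : ii n (γ, ε) ∈ Kn n ↔ γ = 1 := by
  constructor
  · rintro ⟨p, hp, h⟩
    have h1 := ii_inj _ h
    have h2 : p.1 = 1 := hp.1
    rw [h1] at h2
    exact h2
  · rintro rfl
    exact ⟨(1, ε), ⟨rfl, trivial⟩, rfl⟩

theorem Kn_le {n : ℕ} {x : GG} (h : x ∈ Kn n) : ∃ ε, ii n (1, ε) = x := by
  obtain ⟨p, hp, h⟩ := h
  refine ⟨p.2, ?_⟩
  rw [← h]
  congr 1
  exact Prod.ext (show (1 : (tower n).T) = p.1 from hp.1.symm) rfl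

theorem Gn_open (n : ℕ) : IsOpen (Gn n : Set GG) := by
  have : (Gn n : Set GG) = range (ii n) := rfl
  rw [this]
  exact (ii_emb n).isOpen_range

theorem Kn_set (n : ℕ) : (Kn n : Set GG) = ii n '' (({1} : Set (tower n).T) ×ˢ univ) := by
  ext x
  constructor
  · intro h
    obtain ⟨ε, rfl⟩ := Kn_le h
    exact ⟨(1, ε), ⟨rfl, trivial⟩, rfl⟩
  · rintro ⟨⟨γ, ε⟩, ⟨h1, _⟩, rfl⟩
    exact mem_Kn.mpr h1

theorem Kn_open (n : ℕ) : IsOpen (Kn n : Set GG) := by
  rw [Kn_set]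
  exact (ii_emb n).isOpenMap _ ((isOpen_discrete _).prod isOpen_univ)

theorem Kn_compact (n : ℕ) : IsCompact (Kn n : Set GG) := by
  rw [Kn_set]
  exact (isCompact_singleton.prod isCompact_univ).image (ii_emb n).continuous

theorem Gn_mono : Monotone Gn := by
  refine monotone_nat_of_le_succ fun n => ?_
  rintro _ ⟨⟨γ, ε⟩, rfl⟩
  exact ⟨_, ii_step n γ ε⟩

theorem Gn_all (x : GG) : ∃ n, x ∈ Gn n := by
  obtain ⟨n, γ, ε, rfl⟩ := ii_surj x
  exact ⟨n, _, rfl⟩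

theorem Kn_anti : Antitone Kn := by
  refine antitone_nat_of_succ_le fun n => ?_
  intro x hx
  obtain ⟨ε, rfl⟩ := Kn_le hx
  have h := ii_step n 1 (cons 1 ε)
  have e : (io (tower n).T 1 * wh (tower n).T (cons 1 ε 0),
      fun k => cons 1 ε (k + 1)) = ((1 : (tower (n + 1)).T), ε) := by
    refine Prod.ext ?_ rfl
    change io (tower n).T 1 * wh (tower n).T 1 = 1
    rw [map_one, map_one, mul_one]
  have h' : ii (n + 1) ((1 : (tower (n + 1)).T), ε) = ii n (1, cons 1 ε) :=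
    (congrArg (ii (n + 1)) e).symm.trans h
  rw [h']
  exact mem_Kn.mpr rfl

theorem Kn_inter_aux (k : ℕ) : ∀ (n : ℕ) (ε : ℕ → C2), (∀ m, ii n (1, ε) ∈ Kn m) → ε k = 1 := by
  have h0 : ∀ (n : ℕ) (ε : ℕ → C2), (∀ m, ii n (1, ε) ∈ Kn m) → ε 0 = 1 := by
    intro n ε h
    have h1 := h (n + 1)
    rw [← ii_step, mem_Kn] at h1
    have h2 : io (tower n).T 1 * wh (tower n).T (ε 0) = io (tower n).T 1 * wh (tower n).T 1 := by
      rw [map_one (wh (tower n).T), map_one (io (tower n).T), mul_one]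
      rw [map_one (io (tower n).T)] at h1
      exact h1
    exact (io_wh_inj _ h2).2
  induction k with
  | zero => exact h0
  | succ k ih =>
    intro n ε h
    have h1 := h0 n ε h
    have h2 : ii (n + 1) (1, fun k => ε (k + 1)) = ii n (1, ε) := by
      rw [← ii_step n 1 ε, h1]
      congr 1
      refine Prod.ext ?_ rfl
      change (1 : Nx (tower n).T) = io (tower n).T 1 * wh (tower n).T 1
      rw [map_one, map_one, mul_one]
    exact ih (n + 1) (fun k => ε (k + 1)) (fun m => by rw [h2]; exact h m)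

theorem Kn_inter (x : GG) (h : ∀ n, x ∈ Kn n) : x = 1 := by
  obtain ⟨ε, rfl⟩ := Kn_le (h 0)
  have : ε = 1 := funext fun k => Kn_inter_aux k 0 ε h
  rw [this]
  exact map_one (ii 0)

theorem Kn_normal (n : ℕ) : ∀ g ∈ Gn n, ∀ y ∈ Kn n, g * y * g⁻¹ ∈ Kn n := by
  rintro _ ⟨⟨γ, ε⟩, rfl⟩ y hy
  obtain ⟨ε', rfl⟩ := Kn_le hy
  rw [← map_inv, ← map_mul, ← map_mul]
  have : ((γ, ε) * (1, ε') * (γ, ε)⁻¹ : Lv n) = (1, ε * ε' * ε⁻¹) :=
    Prod.ext (by simp) rfl
  rw [this]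
  exact mem_Kn.mpr rfl

theorem Q_mem (n : ℕ) : ∀ q ∈ (tower n).Q, ∀ ε : ℕ → C2, ii n (q, ε) ∈ Gn 0 := by
  induction n with
  | zero => exact fun q _ ε => ⟨(q, ε), rfl⟩
  | succ n ih =>
    rintro q ⟨q', hq', e, rfl⟩ ε
    have h := ii_step n q' (cons e ε)
    have h2 : ii (n + 1) (io (tower n).T q' * wh (tower n).T e, ε) = ii n (q', cons e ε) := h
    have h3 := ih q' hq' (cons e ε)
    rw [← h2] at h3
    exact h3

theorem odd_GG (g : GG) : ∃ k ∈ Gn 0, g⁻¹ * k * g ∈ HH ∧ sig (g⁻¹ * k * g) = -1 := by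
  classical
  obtain ⟨n, γ, ε, rfl⟩ := ii_surj g
  obtain ⟨q, hq, hs, hA⟩ := (tower n).odd γ
  refine ⟨ii n (q, 1), Q_mem n q hq 1, ?_⟩
  have e : (ii n (γ, ε))⁻¹ * ii n (q, (1 : ℕ → C2)) * ii n (γ, ε) =
      ii n (γ⁻¹ * q * γ, (1 : ℕ → C2)) := by
    rw [← map_inv, ← map_mul, ← map_mul]
    congr 1
    refine Prod.ext rfl ?_
    change ε⁻¹ * 1 * ε = 1
    rw [mul_one, inv_mul_cancel]
  rw [e]
  refine ⟨mem_HH.mpr ⟨hA, rfl⟩, ?_⟩
  rw [sig_eq hA, if_neg]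
  rw [map_mul, map_mul, map_inv, mul_comm, mul_inv_cancel_left]
  exact hs

theorem HH_K0 : ∀ a ∈ HH, a ∈ Kn 0 → a = 1 := by
  intro a ha hK
  obtain ⟨ε, rfl⟩ := Kn_le hK
  have := (mem_HH.mp ha).2
  rw [this]
  exact map_one (ii 0)

theorem Gn0_compact : IsCompact (Gn 0 : Set GG) := by
  have : (Gn 0 : Set GG) = range (ii 0) := rfl
  rw [this]
  haveI : Finite (tower 0).T := (inferInstance : Finite (Multiplicative (ZMod 4)))
  exact isCompact_range (ii_emb 0).continuous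

end Pool.Agent.L5helper82.FP
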