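import Mathlib

set_option linter.unusedSectionVars false

open MeasureTheory Topology Filter
open scoped ENNReal InnerProductSpace

namespace Pool.Agent.L5helper82.FP

section Defs

variable {G : Type} [Group G] [TopologicalSpace G] [IsTopologicalGroup G]
  [MeasurableSpace G] [BorelSpace G]

/-- The left regular representation on `L²(G, μ)`: `(lreg μ g ξ)(x) = ξ(g⁻¹ x)`. -/
noncomputable def lreg (μ : Measure G) [μ.IsHaarMeasure] (g : G) : Lp ℂ 2 μ →L[ℂ] Lp ℂ 2 μ :=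
  (Lp.compMeasurePreservingₗᵢ ℂ (fun x => g⁻¹ * x)
    (measurePreserving_mul_left μ g⁻¹)).toContinuousLinearMap

/-- `T` is the operator `λ(f) = ∫ f(y) λ(y) dy` (weak integral) for the integrable function `f`. -/
def IsConv (μ : Measure G) [μ.IsHaarMeasure] (f : G → ℂ) (T : Lp ℂ 2 μ →L[ℂ] Lp ℂ 2 μ) : Prop :=
  Integrable f μ ∧ ∀ ξ ζ : Lp ℂ 2 μ, ⟪ζ, T ξ⟫_ℂ = ∫ y, f y * ⟪ζ, lreg μ y ξ⟫_ℂ ∂μ

/-- The reduced group C*-algebra: the norm closure of `λ(L¹(G))` in `B(L²(G))`. -/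
def redCstar (μ : Measure G) [μ.IsHaarMeasure] : Set (Lp ℂ 2 μ →L[ℂ] Lp ℂ 2 μ) :=
  closure {T | ∃ f, IsConv μ f T}

/-- An algebra `A` of operators is simple: its only closed two-sided ideals are `0` and `A`. -/
def IsSimpleAlg {H : Type} [NormedAddCommGroup H] [InnerProductSpace ℂ H] (A : Set (H →L[ℂ] H)) :
    Prop :=
  ∀ I : Submodule ℂ (H →L[ℂ] H), (I : Set (H →L[ℂ] H)) ⊆ A → IsClosed (I : Set (H →L[ℂ] H)) →
    (∀ a ∈ A, ∀ x ∈ I, a * x ∈ I ∧ x * a ∈ I) →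
    (I : Set (H →L[ℂ] H)) = {0} ∨ (I : Set (H →L[ℂ] H)) = A

end Defs

section Basic

variable {G : Type} [Group G] [TopologicalSpace G] [IsTopologicalGroup G]
  [LocallyCompactSpace G] [T2Space G] [SecondCountableTopology G]
  [MeasurableSpace G] [BorelSpace G] (μ : Measure G) [μ.IsHaarMeasure]

theorem lreg_eq (g : G) (ξ : Lp ℂ 2 μ) :
    lreg μ g ξ = (DomMulAct.mk g⁻¹) • ξ := rfl

theorem lreg_one : lreg μ (1 : G) = 1 := by
  ext1 ξ
  rw [lreg_eq]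
  simp

theorem lreg_mul (a b : G) : lreg μ (a * b) = lreg μ a * lreg μ b := by
  ext1 ξ
  rw [mul_apply_eq_comp, lreg_eq, lreg_eq, lreg_eq, smul_smul, ← DomMulAct.mk_mul,
    mul_inv_rev]

theorem norm_lreg (a : G) (ξ : Lp ℂ 2 μ) : ‖lreg μ a ξ‖ = ‖ξ‖ :=
  (Lp.compMeasurePreservingₗᵢ ℂ (fun x => a⁻¹ * x) (measurePreserving_mul_left μ a⁻¹)).norm_map ξ

theorem inner_lreg (a : G) (ξ ζ : Lp ℂ 2 μ) : ⟪lreg μ a ξ, lreg μ a ζ⟫_ℂ = ⟪ξ, ζ⟫_ℂ :=
  (Lp.compMeasurePreservingₗᵢ ℂ (fun x => a⁻¹ * x)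
    (measurePreserving_mul_left μ a⁻¹)).inner_map_map ξ ζ

theorem inner_lreg_left (a : G) (ξ ζ : Lp ℂ 2 μ) : ⟪lreg μ a ξ, ζ⟫_ℂ = ⟪ξ, lreg μ a⁻¹ ζ⟫_ℂ := by
  rw [← inner_lreg μ a ξ (lreg μ a⁻¹ ζ), ← mul_apply_eq_comp, ← lreg_mul,
    mul_inv_cancel, lreg_one, one_apply_eq_self]

theorem inner_lreg_right (a : G) (ξ ζ : Lp ℂ 2 μ) : ⟪ξ, lreg μ a ζ⟫_ℂ = ⟪lreg μ a⁻¹ ξ, ζ⟫_ℂ := by
  rw [inner_lreg_left, inv_inv]

theorem continuous_lreg (ξ : Lp ℂ 2 μ) : Continuous fun y : G => lreg μ y ξ := by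
  have h : (fun y : G => lreg μ y ξ) = fun y : G => (DomMulAct.mk y⁻¹) • ξ := rfl
  rw [h]
  haveI : Fact ((2 : ℝ≥0∞) ≠ ∞) := ⟨by norm_num⟩
  have h1 : Continuous fun y : G => DomMulAct.mk y⁻¹ :=
    DomMulAct.continuous_mk.comp continuous_inv
  exact h1.smul continuous_const

theorem integrable_mul_inner {f : G → ℂ} (hf : Integrable f μ) (ξ ζ : Lp ℂ 2 μ) :
    Integrable (fun y => f y * ⟪ζ, lreg μ y ξ⟫_ℂ) μ := by
  have hc : Continuous fun y : G => ⟪ζ, lreg μ y ξ⟫_ℂ :=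
    continuous_const.inner (continuous_lreg μ ξ)
  have hb : ∀ y : G, ‖⟪ζ, lreg μ y ξ⟫_ℂ‖ ≤ ‖ζ‖ * ‖ξ‖ := fun y => by
    refine (norm_inner_le_norm _ _).trans ?_
    rw [norm_lreg]
  have := hf.mul_bdd (c := ‖ζ‖ * ‖ξ‖) hc.aestronglyMeasurable (Eventually.of_forall hb)
  exact this

/-- The convolution operators exist. -/
theorem conv_exists {f : G → ℂ} (hf : Integrable f μ) : ∃ T, IsConv μ f T := by
  have hint : ∀ ξ : Lp ℂ 2 μ, Integrable (fun y => f y • lreg μ y ξ) μ := by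
    intro ξ
    refine (hf.norm.mul_const ‖ξ‖).mono' ?_ (Eventually.of_forall fun y => ?_)
    · exact hf.aestronglyMeasurable.smul (continuous_lreg μ ξ).aestronglyMeasurable
    · rw [norm_smul, norm_lreg]
  let L : Lp ℂ 2 μ →ₗ[ℂ] Lp ℂ 2 μ :=
    { toFun := fun ξ => ∫ y, f y • lreg μ y ξ ∂μ
      map_add' := by
        intro ξ ζ
        rw [← integral_add (hint ξ) (hint ζ)]
        congr 1
        funext y
        rw [map_add, smul_add]
      map_smul' := by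
        intro c ξ
        rw [RingHom.id_apply, ← integral_smul]
        congr 1
        funext y
        rw [map_smul, smul_comm] }
  let T : Lp ℂ 2 μ →L[ℂ] Lp ℂ 2 μ := L.mkContinuous (∫ y, ‖f y‖ ∂μ) (by
    intro ξ
    refine (norm_integral_le_integral_norm _).trans ?_
    rw [← integral_mul_const]
    refine le_of_eq ?_
    congr 1
    funext y
    rw [norm_smul, norm_lreg])
  refine ⟨T, hf, fun ξ ζ => ?_⟩
  change ⟪ζ, ∫ y, f y • lreg μ y ξ ∂μ⟫_ℂ = _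
  rw [← integral_inner (hint ξ)]
  congr 1
  funext y
  rw [inner_smul_right]

theorem conv_add {f f' : G → ℂ} {T T' : Lp ℂ 2 μ →L[ℂ] Lp ℂ 2 μ} (h : IsConv μ f T)
    (h' : IsConv μ f' T') : IsConv μ (fun y => f y + f' y) (T + T') := by
  refine ⟨h.1.add h'.1, fun ξ ζ => ?_⟩
  rw [add_apply, inner_add_right, h.2, h'.2,
    ← integral_add (integrable_mul_inner μ h.1 ξ ζ) (integrable_mul_inner μ h'.1 ξ ζ)]
  congr 1
  funext y
  ring

theorem conv_smul {f : G → ℂ} {T : Lp ℂ 2 μ →L[ℂ] Lp ℂ 2 μ} (h : IsConv μ f T) (c : ℂ) :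
    IsConv μ (fun y => c * f y) (c • T) := by
  refine ⟨h.1.const_mul c, fun ξ ζ => ?_⟩
  rw [smul_apply, inner_smul_right, h.2, ← integral_const_mul]
  congr 1
  funext y
  ring

theorem conv_zero : IsConv μ (fun _ => 0) (0 : Lp ℂ 2 μ →L[ℂ] Lp ℂ 2 μ) := by
  refine ⟨integrable_zero _ _ _, fun ξ ζ => ?_⟩
  simp

theorem conv_mul {f f' : G → ℂ} {T T' : Lp ℂ 2 μ →L[ℂ] Lp ℂ 2 μ} (h : IsConv μ f T)
    (h' : IsConv μ f' T') : ∃ k, IsConv μ k (T * T') := by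
  have hF0 : Integrable (fun p : G × G => f p.1 * f' p.2) (μ.prod μ) := h.1.mul_prod h'.1
  have hmp : MeasurePreserving (fun p : G × G => (p.1, p.1⁻¹ * p.2)) (μ.prod μ) (μ.prod μ) :=
    measurePreserving_prod_inv_mul μ μ
  have hF : Integrable (fun p : G × G => f p.1 * f' (p.1⁻¹ * p.2)) (μ.prod μ) :=
    hmp.integrable_comp_of_integrable hF0
  refine ⟨fun x => ∫ y, f y * f' (y⁻¹ * x) ∂μ, hF.integral_prod_right, fun ξ ζ => ?_⟩
  have hc : Continuous fun y : G => ⟪ζ, lreg μ y ξ⟫_ℂ :=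
    continuous_const.inner (continuous_lreg μ ξ)
  have hb : ∀ y : G, ‖⟪ζ, lreg μ y ξ⟫_ℂ‖ ≤ ‖ζ‖ * ‖ξ‖ := fun y => by
    refine (norm_inner_le_norm _ _).trans ?_
    rw [norm_lreg]
  have hF2 : Integrable (fun p : G × G => f p.1 * f' (p.1⁻¹ * p.2) * ⟪ζ, lreg μ p.2 ξ⟫_ℂ)
      (μ.prod μ) :=
    hF.mul_bdd (c := ‖ζ‖ * ‖ξ‖) (hc.comp continuous_snd).aestronglyMeasurable
      (Eventually.of_forall fun p => hb p.2)
  have hswap := integral_integral_swap (μ := μ) (ν := μ)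
    (f := fun y x => f y * f' (y⁻¹ * x) * ⟪ζ, lreg μ x ξ⟫_ℂ) hF2
  rw [mul_apply_eq_comp, h.2]
  calc ∫ y, f y * ⟪ζ, lreg μ y (T' ξ)⟫_ℂ ∂μ
      = ∫ y, ∫ x, f y * f' (y⁻¹ * x) * ⟪ζ, lreg μ x ξ⟫_ℂ ∂μ ∂μ := by
        congr 1
        funext y
        have h1 : ⟪ζ, lreg μ y (T' ξ)⟫_ℂ = ∫ x, f' (y⁻¹ * x) * ⟪ζ, lreg μ x ξ⟫_ℂ ∂μ := by
          rw [inner_lreg_right, h'.2]
          rw [← integral_mul_left_eq_self
            (fun z => f' z * ⟪lreg μ y⁻¹ ζ, lreg μ z ξ⟫_ℂ) y⁻¹]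
          congr 1
          funext x
          rw [inner_lreg_left, inv_inv, ← mul_apply_eq_comp, ← lreg_mul, mul_inv_cancel_left]
        rw [h1, ← integral_const_mul]
        congr 1
        funext x
        ring
    _ = ∫ x, ∫ y, f y * f' (y⁻¹ * x) * ⟪ζ, lreg μ x ξ⟫_ℂ ∂μ ∂μ := hswap
    _ = _ := by
        congr 1
        funext x
        rw [integral_mul_const]

theorem red_of_conv {f : G → ℂ} {T : Lp ℂ 2 μ →L[ℂ] Lp ℂ 2 μ} (h : IsConv μ f T) :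
    T ∈ redCstar μ := subset_closure ⟨f, h⟩

theorem red_mul {a b : Lp ℂ 2 μ →L[ℂ] Lp ℂ 2 μ} (ha : a ∈ redCstar μ) (hb : b ∈ redCstar μ) :
    a * b ∈ redCstar μ :=
  map_mem_closure₂ continuous_mul ha hb (by
    rintro a ⟨f, hf⟩ b ⟨f', hf'⟩
    exact conv_mul μ hf hf')

theorem red_add {a b : Lp ℂ 2 μ →L[ℂ] Lp ℂ 2 μ} (ha : a ∈ redCstar μ) (hb : b ∈ redCstar μ) :
    a + b ∈ redCstar μ :=
  map_mem_closure₂ continuous_add ha hb (by
    rintro a ⟨f, hf⟩ b ⟨f', hf'⟩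
    exact ⟨_, conv_add μ hf hf'⟩)

theorem red_smul {a : Lp ℂ 2 μ →L[ℂ] Lp ℂ 2 μ} (c : ℂ) (ha : a ∈ redCstar μ) :
    c • a ∈ redCstar μ :=
  map_mem_closure (continuous_const_smul c) ha (by
    rintro a ⟨f, hf⟩
    exact ⟨_, conv_smul μ hf c⟩)

theorem red_zero : (0 : Lp ℂ 2 μ →L[ℂ] Lp ℂ 2 μ) ∈ redCstar μ :=
  red_of_conv μ (conv_zero μ)

end Basic

section Ideal

variable {G : Type} [Group G] [TopologicalSpace G] [IsTopologicalGroup G]
  [LocallyCompactSpace G] [T2Space G] [SecondCountableTopology G]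
  [MeasurableSpace G] [BorelSpace G] (μ : Measure G) [μ.IsHaarMeasure]

/-- The closed ideal attached to a bounded sequence of vectors. -/
def idl (u : ℕ → Lp ℂ 2 μ) (hu : ∀ n, ‖u n‖ ≤ 1) : Submodule ℂ (Lp ℂ 2 μ →L[ℂ] Lp ℂ 2 μ) where
  carrier := {x | x ∈ redCstar μ ∧ ∀ s t : G,
    Tendsto (fun n => ⟪lreg μ s (u n), x (lreg μ t (u n))⟫_ℂ) atTop (𝓝 0)}
  zero_mem' := ⟨red_zero μ, fun s t => by simp⟩
  add_mem' := by
    rintro a b ⟨ha, ha'⟩ ⟨hb, hb'⟩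
    refine ⟨red_add μ ha hb, fun s t => ?_⟩
    have := (ha' s t).add (hb' s t)
    simpa [inner_add_right] using this
  smul_mem' := by
    rintro c a ⟨ha, ha'⟩
    refine ⟨red_smul μ c ha, fun s t => ?_⟩
    have := (ha' s t).const_mul c
    simpa [inner_smul_right] using this

theorem idl_closed (u : ℕ → Lp ℂ 2 μ) (hu : ∀ n, ‖u n‖ ≤ 1) :
    IsClosed (idl μ u hu : Set (Lp ℂ 2 μ →L[ℂ] Lp ℂ 2 μ)) := by
  rw [← isSeqClosed_iff_isClosed]
  intro x a hx hxa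
  refine ⟨isClosed_closure.isSeqClosed (fun n => (hx n).1) hxa, fun s t => ?_⟩
  rw [Metric.tendsto_atTop]
  intro ε hε
  rw [Metric.tendsto_atTop] at hxa
  obtain ⟨N, hN⟩ := hxa (ε / 2) (by positivity)
  obtain ⟨M, hM⟩ := Metric.tendsto_atTop.mp ((hx N).2 s t) (ε / 2) (by positivity)
  refine ⟨M, fun n hn => ?_⟩
  have h1 := hM n hn
  have h2 := hN N le_rfl
  rw [dist_zero_right] at h1 ⊢
  have h3 : ⟪lreg μ s (u n), a (lreg μ t (u n))⟫_ℂ =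
      ⟪lreg μ s (u n), x N (lreg μ t (u n))⟫_ℂ
        - ⟪lreg μ s (u n), (x N - a) (lreg μ t (u n))⟫_ℂ := by
    rw [sub_apply, inner_sub_right]
    ring
  rw [h3]
  refine (norm_sub_le _ _).trans_lt ?_
  have h4 : ‖⟪lreg μ s (u n), (x N - a) (lreg μ t (u n))⟫_ℂ‖ < ε / 2 := by
    refine (norm_inner_le_norm _ _).trans_lt ?_
    refine lt_of_le_of_lt ?_ (by simpa [dist_eq_norm] using h2)
    have h5 := (x N - a).le_opNorm (lreg μ t (u n))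
    rw [norm_lreg] at h5 ⊢
    have h6 := hu n
    have h7 := norm_nonneg (u n)
    have h8 := norm_nonneg (x N - a)
    nlinarith [norm_nonneg ((x N - a) (lreg μ t (u n))), mul_nonneg h7 h8]
  linarith

theorem dct_aux (u : ℕ → Lp ℂ 2 μ) {f : G → ℂ} (hf : Integrable f μ) {C : ℝ}
    (F : ℕ → G → ℂ) (hF : ∀ n, Continuous (F n)) (hb : ∀ n y, ‖F n y‖ ≤ C)
    (hlim : ∀ y, Tendsto (fun n => F n y) atTop (𝓝 0)) :
    Tendsto (fun n => ∫ y, f y * F n y ∂μ) atTop (𝓝 0) := by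
  have h := tendsto_integral_of_dominated_convergence (μ := μ)
    (F := fun n y => f y * F n y) (f := fun _ => (0 : ℂ)) (fun y => ‖f y‖ * C)
    (fun n => hf.aestronglyMeasurable.mul (hF n).aestronglyMeasurable)
    (hf.norm.mul_const C)
    (fun n => Eventually.of_forall fun y => by
      rw [norm_mul]
      exact mul_le_mul_of_nonneg_left (hb n y) (norm_nonneg _))
    (Eventually.of_forall fun y => by
      simpa using (hlim y).const_mul (f y))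
  simpa using h

theorem inner_adj (x : Lp ℂ 2 μ →L[ℂ] Lp ℂ 2 μ) (ξ ζ : Lp ℂ 2 μ) :
    ⟪ζ, x ξ⟫_ℂ = ⟪ContinuousLinearMap.adjoint x ζ, ξ⟫_ℂ := by
  rw [ContinuousLinearMap.adjoint_inner_left]

theorem idl_conv (u : ℕ → Lp ℂ 2 μ) (hu : ∀ n, ‖u n‖ ≤ 1) {f : G → ℂ}
    {a x : Lp ℂ 2 μ →L[ℂ] Lp ℂ 2 μ} (ha : IsConv μ f a) (hx : x ∈ idl μ u hu) :
    a * x ∈ idl μ u hu ∧ x * a ∈ idl μ u hu := by
  have hbd : ∀ (s t : G) (n : ℕ), ‖⟪lreg μ s (u n), x (lreg μ t (u n))⟫_ℂ‖ ≤ ‖x‖ := by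
    intro s t n
    refine (norm_inner_le_norm _ _).trans ?_
    have h5 := x.le_opNorm (lreg μ t (u n))
    rw [norm_lreg] at h5 ⊢
    have h6 := hu n
    have h7 := norm_nonneg (u n)
    have h8 := norm_nonneg x
    nlinarith [norm_nonneg (x (lreg μ t (u n))), mul_nonneg h7 h8]
  refine ⟨⟨red_mul μ (red_of_conv μ ha) hx.1, fun s t => ?_⟩,
    ⟨red_mul μ hx.1 (red_of_conv μ ha), fun s t => ?_⟩⟩
  · have h1 : (fun n => ⟪lreg μ s (u n), (a * x) (lreg μ t (u n))⟫_ℂ) =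
        fun n => ∫ y, f y * ⟪lreg μ (y⁻¹ * s) (u n), x (lreg μ t (u n))⟫_ℂ ∂μ := by
      funext n
      rw [mul_apply_eq_comp, ha.2]
      congr 1
      funext y
      rw [inner_lreg_right, ← mul_apply_eq_comp, ← lreg_mul]
    rw [h1]
    refine dct_aux μ u ha.1 (C := ‖x‖)
      (fun n y => ⟪lreg μ (y⁻¹ * s) (u n), x (lreg μ t (u n))⟫_ℂ) (fun n => ?_)
      (fun n y => hbd _ _ _) (fun y => hx.2 _ _)
    refine Continuous.inner ?_ continuous_const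
    exact (continuous_lreg μ (u n)).comp (continuous_inv.mul continuous_const)
  · have h1 : (fun n => ⟪lreg μ s (u n), (x * a) (lreg μ t (u n))⟫_ℂ) =
        fun n => ∫ y, f y * ⟪lreg μ s (u n), x (lreg μ (y * t) (u n))⟫_ℂ ∂μ := by
      funext n
      rw [mul_apply_eq_comp, inner_adj, ha.2]
      congr 1
      funext y
      rw [← inner_adj, ← mul_apply_eq_comp (lreg μ y), ← lreg_mul]
    rw [h1]
    refine dct_aux μ u ha.1 (C := ‖x‖)
      (fun n y => ⟪lreg μ s (u n), x (lreg μ (y * t) (u n))⟫_ℂ) (fun n => ?_)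
      (fun n y => hbd _ _ _) (fun y => hx.2 _ _)
    refine Continuous.inner continuous_const (x.continuous.comp ?_)
    exact (continuous_lreg μ (u n)).comp (continuous_id.mul continuous_const)

theorem idl_mul (u : ℕ → Lp ℂ 2 μ) (hu : ∀ n, ‖u n‖ ≤ 1)
    {a x : Lp ℂ 2 μ →L[ℂ] Lp ℂ 2 μ} (ha : a ∈ redCstar μ) (hx : x ∈ idl μ u hu) :
    a * x ∈ idl μ u hu ∧ x * a ∈ idl μ u hu := by
  constructor
  · have h := (idl_closed μ u hu).preimage (continuous_mul_const x)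
    exact closure_minimal (s := {T | ∃ f, IsConv μ f T})
      (t := (fun y => y * x) ⁻¹' (idl μ u hu : Set (Lp ℂ 2 μ →L[ℂ] Lp ℂ 2 μ)))
      (by rintro b ⟨f, hf⟩; exact (idl_conv μ u hu hf hx).1) h ha
  · have h := (idl_closed μ u hu).preimage (continuous_const_mul x)
    exact closure_minimal (s := {T | ∃ f, IsConv μ f T})
      (t := (fun y => x * y) ⁻¹' (idl μ u hu : Set (Lp ℂ 2 μ →L[ℂ] Lp ℂ 2 μ)))
      (by rintro b ⟨f, hf⟩; exact (idl_conv μ u hu hf hx).2) h ha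

end Ideal

end Pool.Agent.L5helper82.FP
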