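import Mathlib

set_option linter.unusedSectionVars false

open Set

namespace Pool.Agent.L5helper82.FP

/-- the group with two elements -/
abbrev C2 := Multiplicative (ZMod 2)

/-- `A` is locally finite -/
def LF {T : Type} [Group T] (A : Subgroup T) : Prop :=
  ∀ S : Set T, S.Finite → S ⊆ A → ∃ F : Subgroup T, (F : Set T).Finite ∧ S ⊆ F ∧ F ≤ A

section Step

variable (Γ : Type) [Group Γ]

/-- free product of two copies -/
abbrev Dl := Monoid.CoprodI (fun _ : Bool => Γ)

/-- first factor -/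
def emb : Γ →* Dl Γ := Monoid.CoprodI.of (M := fun _ : Bool => Γ) (i := true)

/-- second factor -/
def emb2 : Γ →* Dl Γ := Monoid.CoprodI.of (M := fun _ : Bool => Γ) (i := false)

theorem emb_inj : Function.Injective (emb Γ) := Monoid.CoprodI.of_injective _

/-- coset space -/
abbrev Xs := Dl Γ ⧸ (emb Γ).range

/-- base point -/
def pt : Xs Γ := ((1 : Dl Γ) : Xs Γ)

theorem smul_pt (d : Dl Γ) : d • pt Γ = pt Γ ↔ d ∈ (emb Γ).range := by
  unfold pt
  rw [MulAction.Quotient.smul_coe, smul_eq_mul, mul_one]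
  rw [eq_comm, QuotientGroup.eq, inv_one, one_mul]

/-- the base of the wreath product -/
abbrev Vs := Multiplicative (Xs Γ →₀ ZMod 2)

/-- action on the base -/
noncomputable def actV : Dl Γ →* MulAut (Vs Γ) where
  toFun d := AddEquiv.toMultiplicative (Finsupp.domCongr (MulAction.toPerm d))
  map_one' := by
    ext v
    simp
  map_mul' d d' := by
    ext v
    simp [mul_smul]

theorem actV_apply (d : Dl Γ) (v : Vs Γ) (x : Xs Γ) :
    Multiplicative.toAdd (actV Γ d v) x = Multiplicative.toAdd v (d⁻¹ • x) := rfl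

/-- the next group -/
abbrev Nx := Vs Γ ⋊[actV Γ] Dl Γ

/-- the embedding -/
noncomputable def io : Γ →* Nx Γ := SemidirectProduct.inr.comp (emb Γ)

/-- the new central element -/
noncomputable def wh : C2 →* Nx Γ :=
  SemidirectProduct.inl.comp (AddMonoidHom.toMultiplicative (Finsupp.singleAddHom (pt Γ)))

theorem io_left (γ : Γ) : (io Γ γ).left = 1 := rfl
theorem io_right (γ : Γ) : (io Γ γ).right = emb Γ γ := rfl
theorem wh_right (e : C2) : (wh Γ e).right = 1 := rfl
theorem wh_left (e : C2) : (wh Γ e).left =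
    Multiplicative.ofAdd (Finsupp.single (pt Γ) (Multiplicative.toAdd e)) := rfl

theorem actV_wh (d : Dl Γ) (e : C2) : actV Γ d (wh Γ e).left =
    Multiplicative.ofAdd (Finsupp.single (d • pt Γ) (Multiplicative.toAdd e)) := by
  classical
  rw [wh_left]
  apply Multiplicative.toAdd.injective
  ext x
  rw [actV_apply, toAdd_ofAdd, toAdd_ofAdd, Finsupp.single_apply, Finsupp.single_apply]
  by_cases h : d • pt Γ = x
  · rw [if_pos h, if_pos (by rw [← h, inv_smul_smul])]
  · rw [if_neg h, if_neg (fun h' => h (by rw [h', smul_inv_smul]))]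

theorem emb_pt (γ : Γ) : emb Γ γ • pt Γ = pt Γ := (smul_pt Γ _).mpr ⟨γ, rfl⟩

theorem comm_wh (γ : Γ) (e : C2) : wh Γ e * io Γ γ = io Γ γ * wh Γ e := by
  ext1
  · rw [SemidirectProduct.mul_left, SemidirectProduct.mul_left, io_left, io_right, wh_right,
      actV_wh, emb_pt, ← wh_left]
    simp
  · rw [SemidirectProduct.mul_right, SemidirectProduct.mul_right, io_right, wh_right, mul_one,
      one_mul]

theorem io_wh_left (γ : Γ) (e : C2) : (io Γ γ * wh Γ e).left =
    Multiplicative.ofAdd (Finsupp.single (pt Γ) (Multiplicative.toAdd e)) := by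
  rw [SemidirectProduct.mul_left, io_left, io_right, actV_wh, emb_pt, one_mul]

theorem io_wh_right (γ : Γ) (e : C2) : (io Γ γ * wh Γ e).right = emb Γ γ := by
  rw [SemidirectProduct.mul_right, io_right, wh_right, mul_one]

theorem io_wh_inj {γ γ' : Γ} {e e' : C2} (h : io Γ γ * wh Γ e = io Γ γ' * wh Γ e') :
    γ = γ' ∧ e = e' := by
  constructor
  · apply emb_inj Γ
    rw [← io_wh_right Γ γ e, h, io_wh_right]
  · have h1 := congrArg SemidirectProduct.left h
    rw [io_wh_left, io_wh_left] at h1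
    have h2 := Finsupp.single_injective _ (Multiplicative.ofAdd.injective h1)
    exact Multiplicative.toAdd.injective h2

theorem io_inj : Function.Injective (io Γ) := by
  intro a b h
  have := io_wh_inj Γ (γ := a) (γ' := b) (e := 1) (e' := 1) (by rw [h])
  exact this.1

/-- total parity -/
noncomputable def tot : Vs Γ →* C2 :=
  AddMonoidHom.toMultiplicative (Finsupp.liftAddHom fun _ : Xs Γ => AddMonoidHom.id (ZMod 2))

theorem tot_act (d : Dl Γ) (v : Vs Γ) : tot Γ (actV Γ d v) = tot Γ v := by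
  have h : ∀ v : Xs Γ →₀ ZMod 2, Finsupp.liftAddHom (fun _ : Xs Γ => AddMonoidHom.id (ZMod 2))
      (Finsupp.domCongr (MulAction.toPerm d) v) =
      Finsupp.liftAddHom (fun _ : Xs Γ => AddMonoidHom.id (ZMod 2)) v := by
    intro v
    simp only [Finsupp.liftAddHom_apply, Finsupp.domCongr_apply]
    exact Finsupp.sum_equivMapDomain _ _ _
  exact congrArg Multiplicative.ofAdd (h (Multiplicative.toAdd v))

theorem tot_wh (e : C2) : tot Γ (wh Γ e).left = e := by
  rw [wh_left]
  unfold tot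
  simp

variable {Γ}

/-- the sign on the next group -/
noncomputable def sN (s : Γ →* C2) : Nx Γ →* C2 :=
  SemidirectProduct.lift (tot Γ) (Monoid.CoprodI.lift (fun _ : Bool => s)) (by
    intro d
    refine MonoidHom.ext fun v => ?_
    change tot Γ (actV Γ d v) = _ * tot Γ v * _⁻¹
    rw [tot_act, mul_comm, inv_mul_cancel_left])

theorem sN_io (s : Γ →* C2) (γ : Γ) : sN s (io Γ γ) = s γ := by
  unfold sN io
  rw [MonoidHom.comp_apply, SemidirectProduct.lift_inr]
  exact Monoid.CoprodI.lift_of _ _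

theorem sN_wh (s : Γ →* C2) (e : C2) : sN s (wh Γ e) = e := by
  have : wh Γ e = SemidirectProduct.inl (wh Γ e).left := by
    ext1
    · rfl
    · rfl
  rw [this]
  unfold sN
  rw [SemidirectProduct.lift_inl, tot_wh]

/-- the amenable subgroup of the next group -/
noncomputable def AN (A : Subgroup Γ) : Subgroup (Nx Γ) where
  carrier := {x | Multiplicative.toAdd x.left (pt Γ) = 0 ∧ x.right ∈ A.map (emb Γ)}
  one_mem' := ⟨rfl, one_mem _⟩
  mul_mem' := by
    rintro x y ⟨hx, hx'⟩ ⟨hy, hy'⟩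
    refine ⟨?_, mul_mem hx' hy'⟩
    rw [SemidirectProduct.mul_left, toAdd_mul, Finsupp.add_apply, hx, zero_add, actV_apply]
    obtain ⟨a, _, ha⟩ := hx'
    rw [← ha, ← map_inv, emb_pt]
    exact hy
  inv_mem' := by
    rintro x ⟨hx, hx'⟩
    refine ⟨?_, inv_mem hx'⟩
    rw [SemidirectProduct.inv_left, actV_apply, inv_inv]
    obtain ⟨a, _, ha⟩ := hx'
    rw [← ha, emb_pt, toAdd_inv, Finsupp.neg_apply, hx, neg_zero]

theorem mem_AN {A : Subgroup Γ} {γ : Γ} {e : C2} :
    io Γ γ * wh Γ e ∈ AN A ↔ γ ∈ A ∧ e = 1 := by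
  constructor
  · rintro ⟨h1, h2⟩
    rw [io_wh_left] at h1
    rw [io_wh_right] at h2
    obtain ⟨a, ha, hae⟩ := h2
    refine ⟨(emb_inj Γ hae) ▸ ha, ?_⟩
    simp only [toAdd_ofAdd, Finsupp.single_eq_same] at h1
    exact Multiplicative.toAdd.injective h1
  · rintro ⟨h1, rfl⟩
    refine ⟨?_, ?_⟩
    · rw [io_wh_left]
      simp
    · rw [io_wh_right]
      exact ⟨γ, h1, rfl⟩

/-- the elements of the compact group seen at the next level -/
def QN (Q : Set Γ) : Set (Nx Γ) := {x | ∃ q ∈ Q, ∃ e : C2, x = io Γ q * wh Γ e}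

theorem odd_step {A : Subgroup Γ} {Q : Set Γ} {s : Γ →* C2}
    (h : ∀ g : Γ, ∃ q ∈ Q, s q ≠ 1 ∧ g⁻¹ * q * g ∈ A) (h1 : (1 : Γ) ∈ Q) (x : Nx Γ) :
    ∃ q ∈ QN Q, sN s q ≠ 1 ∧ x⁻¹ * q * x ∈ AN A := by
  classical
  obtain ⟨y, rfl⟩ : ∃ y, x = y⁻¹ := ⟨x⁻¹, (inv_inv x).symm⟩
  rw [inv_inv]
  by_cases hc : y.right ∈ (emb Γ).range
  · obtain ⟨γ, hγ⟩ := hc
    obtain ⟨q, hq, hs, hA⟩ := h γ⁻¹
    rw [inv_inv] at hA
    refine ⟨io Γ q, ⟨q, hq, 1, by simp⟩, by rw [sN_io]; exact hs, ?_⟩
    have hr : (y * io Γ q * y⁻¹).right = emb Γ (γ * q * γ⁻¹) := by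
      rw [SemidirectProduct.mul_right, SemidirectProduct.mul_right, io_right,
        SemidirectProduct.inv_right, ← hγ, map_mul, map_mul, map_inv]
    refine ⟨?_, ?_⟩
    · rw [SemidirectProduct.mul_left, SemidirectProduct.mul_left, SemidirectProduct.mul_right,
        io_left, io_right, map_one, mul_one, SemidirectProduct.inv_left, toAdd_mul,
        Finsupp.add_apply, actV_apply, actV_apply, inv_inv, toAdd_inv, Finsupp.neg_apply, ← hγ,
        ← map_mul, ← map_inv, emb_pt, emb_pt, add_neg_cancel]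
    · rw [hr]
      exact ⟨_, hA, rfl⟩
  · refine ⟨wh Γ (Multiplicative.ofAdd 1), ⟨1, h1, Multiplicative.ofAdd 1, by simp⟩, ?_, ?_⟩
    · rw [sN_wh]
      decide
    · refine ⟨?_, ?_⟩
      · rw [SemidirectProduct.mul_left, SemidirectProduct.mul_left, SemidirectProduct.mul_right,
          wh_right, mul_one, SemidirectProduct.inv_left, actV_wh, toAdd_mul, toAdd_mul,
          Finsupp.add_apply, Finsupp.add_apply, actV_apply, actV_apply, inv_inv, smul_inv_smul,
          toAdd_inv, Finsupp.neg_apply, toAdd_ofAdd, toAdd_ofAdd, Finsupp.single_apply, if_neg]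
        · rw [add_zero, add_neg_cancel]
        · intro h
          exact hc ((smul_pt Γ _).mp h)
      · rw [SemidirectProduct.mul_right, SemidirectProduct.mul_right, wh_right, mul_one,
          SemidirectProduct.inv_right, mul_inv_cancel]
        exact one_mem _

theorem lf_step {A : Subgroup Γ} (h : LF A) : LF (AN A) := by
  classical
  intro S hS hSA
  -- the projections
  let S1 : Set Γ := emb Γ ⁻¹' (SemidirectProduct.right '' S)
  have hS1 : S1.Finite := (hS.image _).preimage (emb_inj Γ).injOn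
  have hS1A : S1 ⊆ A := by
    rintro γ ⟨x, hx, he⟩
    obtain ⟨a, ha, hae⟩ := (hSA hx).2
    have : a = γ := emb_inj Γ (by rw [hae, he])
    exact this ▸ ha
  obtain ⟨F1, hF1f, hF1S, hF1A⟩ := h S1 hS1 hS1A
  let Z : Set (Xs Γ) := ⋃ x ∈ S, ↑(Multiplicative.toAdd x.left).support
  have hZ : Z.Finite := hS.biUnion fun x _ => Finset.finite_toSet _
  have hZpt : pt Γ ∉ Z := by
    intro h
    obtain ⟨x, hx, h1⟩ := mem_iUnion₂.mp h
    exact (Finsupp.mem_support_iff.mp h1) (hSA hx).1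
  let Z' : Set (Xs Γ) := (fun p : Γ × Xs Γ => emb Γ p.1 • p.2) '' ((F1 : Set Γ) ×ˢ Z)
  have hZ' : Z'.Finite := (hF1f.prod hZ).image _
  have hZ'pt : pt Γ ∉ Z' := by
    rintro ⟨⟨γ, z⟩, ⟨_, hz⟩, he⟩
    have : z = pt Γ := by
      have h1 : emb Γ γ • z = pt Γ := he
      rw [← emb_pt Γ γ⁻¹, ← h1, ← mul_smul, ← map_mul, inv_mul_cancel, map_one, one_smul]
    exact hZpt (this ▸ hz)
  have hZ'inv : ∀ γ ∈ F1, ∀ z ∈ Z', emb Γ γ • z ∈ Z' := by
    rintro γ hγ _ ⟨⟨γ', z⟩, ⟨hγ', hz⟩, rfl⟩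
    refine ⟨(γ * γ', z), ⟨F1.mul_mem hγ hγ', hz⟩, ?_⟩
    simp only [map_mul, mul_smul]
  let F : Subgroup (Nx Γ) :=
    { carrier := {x | (∀ z, z ∉ Z' → Multiplicative.toAdd x.left z = 0) ∧
        x.right ∈ F1.map (emb Γ)}
      one_mem' := ⟨fun _ _ => rfl, one_mem _⟩
      mul_mem' := by
        rintro x y ⟨hx, hx'⟩ ⟨hy, hy'⟩
        refine ⟨fun z hz => ?_, mul_mem hx' hy'⟩
        rw [SemidirectProduct.mul_left, toAdd_mul, Finsupp.add_apply, hx z hz, zero_add,
          actV_apply]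
        obtain ⟨a, ha, hae⟩ := hx'
        refine hy _ fun h => hz ?_
        rw [← hae] at h
        have := hZ'inv a ha _ h
        rwa [smul_inv_smul] at this
      inv_mem' := by
        rintro x ⟨hx, hx'⟩
        refine ⟨fun z hz => ?_, inv_mem hx'⟩
        rw [SemidirectProduct.inv_left, actV_apply, inv_inv, toAdd_inv, Finsupp.neg_apply]
        obtain ⟨a, ha, hae⟩ := hx'
        rw [hx _ fun h => hz ?_, neg_zero]
        rw [← hae] at h
        have := hZ'inv a⁻¹ (F1.inv_mem ha) _ h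
        rwa [map_inv, inv_smul_smul] at this }
  refine ⟨F, ?_, ?_, ?_⟩
  · -- finiteness
    have hfin1 : ((F1.map (emb Γ) : Subgroup (Dl Γ)) : Set (Dl Γ)).Finite := by
      rw [Subgroup.coe_map]
      exact hF1f.image _
    have hfin2 : {v : Xs Γ →₀ ZMod 2 | ∀ z, z ∉ Z' → v z = 0}.Finite := by
      have hfz : Finite Z' := hZ'.to_subtype
      refine Set.Finite.of_injOn (f := fun (v : Xs Γ →₀ ZMod 2) (z : Z') => v z.1)
        (t := (univ : Set (Z' → ZMod 2))) (fun _ _ => mem_univ _) ?_ finite_univ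
      intro v hv w hw hvw
      ext z
      by_cases hz : z ∈ Z'
      · exact congrFun hvw ⟨z, hz⟩
      · rw [hv z hz, hw z hz]
    refine Set.Finite.of_injOn (f := fun x : Nx Γ => (Multiplicative.toAdd x.left, x.right))
      (t := {v : Xs Γ →₀ ZMod 2 | ∀ z, z ∉ Z' → v z = 0} ×ˢ
        ((F1.map (emb Γ) : Subgroup (Dl Γ)) : Set (Dl Γ))) (fun x hx => ⟨hx.1, hx.2⟩) ?_
      (hfin2.prod hfin1)
    intro x _ y _ hxy
    have h1 := congrArg Prod.fst hxy
    have h2 := congrArg Prod.snd hxy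
    exact SemidirectProduct.ext (Multiplicative.toAdd.injective h1) h2
  · intro x hx
    refine ⟨fun z hz => ?_, ?_⟩
    · by_contra hne
      refine hz ⟨(1, z), ⟨F1.one_mem, mem_iUnion₂.mpr ⟨x, hx, Finsupp.mem_support_iff.mpr hne⟩⟩, ?_⟩
      simp only [map_one, one_smul]
    · obtain ⟨a, ha, hae⟩ := (hSA hx).2
      exact ⟨a, hF1S ⟨x, hx, hae.symm⟩, hae⟩
  · rintro x ⟨hx, hx'⟩
    refine ⟨hx _ hZ'pt, ?_⟩
    exact Subgroup.map_mono hF1A hx'

/-- words beginning with a letter of the first factor -/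
def UU (Γ : Type) [Group Γ] : Set (Dl Γ) := by
  classical
  exact {d | Monoid.CoprodI.Word.fstIdx
    (d • (Monoid.CoprodI.Word.empty : Monoid.CoprodI.Word (fun _ : Bool => Γ))) = some true}

theorem UU1 {γ : Γ} (hγ : γ ≠ 1) {d : Dl Γ} (hd : d ∉ UU Γ) : emb Γ γ * d ∈ UU Γ := by
  classical
  unfold UU at hd ⊢
  change Monoid.CoprodI.Word.fstIdx ((emb Γ γ * d) •
    (Monoid.CoprodI.Word.empty : Monoid.CoprodI.Word (fun _ : Bool => Γ))) = some true
  rw [mul_smul]
  have h := Monoid.CoprodI.Word.cons_eq_smul (M := fun _ : Bool => Γ) (i := true) (m := γ)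
    (ls := d • (Monoid.CoprodI.Word.empty : Monoid.CoprodI.Word (fun _ : Bool => Γ)))
    (h1 := hd) (h2 := hγ)
  change Monoid.CoprodI.Word.fstIdx ((Monoid.CoprodI.of (M := fun _ : Bool => Γ) (i := true) γ) • _)
    = some true
  rw [← h, Monoid.CoprodI.Word.fstIdx_cons]

theorem UU2 {γ : Γ} (hγ : γ ≠ 1) {d : Dl Γ} (hd : d ∈ UU Γ) : emb2 Γ γ * d ∉ UU Γ := by
  classical
  unfold UU at hd ⊢
  change ¬ (Monoid.CoprodI.Word.fstIdx ((emb2 Γ γ * d) •
    (Monoid.CoprodI.Word.empty : Monoid.CoprodI.Word (fun _ : Bool => Γ))) = some true)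
  rw [mul_smul]
  have hd' : Monoid.CoprodI.Word.fstIdx
    (d • (Monoid.CoprodI.Word.empty : Monoid.CoprodI.Word (fun _ : Bool => Γ))) ≠ some false := by
    have h0 : Monoid.CoprodI.Word.fstIdx
      (d • (Monoid.CoprodI.Word.empty : Monoid.CoprodI.Word (fun _ : Bool => Γ))) = some true := hd
    rw [h0]
    simp
  have h := Monoid.CoprodI.Word.cons_eq_smul (M := fun _ : Bool => Γ) (i := false) (m := γ)
    (ls := d • (Monoid.CoprodI.Word.empty : Monoid.CoprodI.Word (fun _ : Bool => Γ)))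
    (h1 := hd') (h2 := hγ)
  change ¬ (Monoid.CoprodI.Word.fstIdx
    ((Monoid.CoprodI.of (M := fun _ : Bool => Γ) (i := false) γ) • _) = some true)
  rw [← h, Monoid.CoprodI.Word.fstIdx_cons]
  simp

theorem countable_Dl [Countable Γ] : Countable (Dl Γ) := by
  classical
  have e : Dl Γ ≃ Monoid.CoprodI.Word (fun _ : Bool => Γ) := Monoid.CoprodI.Word.equiv
  have : Countable (Monoid.CoprodI.Word (fun _ : Bool => Γ)) := by
    refine Function.Injective.countable
      (f := fun w : Monoid.CoprodI.Word (fun _ : Bool => Γ) => w.toList) ?_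
    intro a b h
    exact Monoid.CoprodI.Word.ext h
  exact e.injective.countable

theorem countable_Nx [Countable Γ] : Countable (Nx Γ) := by
  have h1 : Countable (Dl Γ) := countable_Dl
  have h2 : Countable (Xs Γ) := Quotient.countable
  have h3 : Countable (Xs Γ →₀ ZMod 2) := inferInstance
  refine Function.Injective.countable
    (f := fun x : Nx Γ => (Multiplicative.toAdd x.left, x.right)) ?_
  intro x y hxy
  exact SemidirectProduct.ext (Multiplicative.toAdd.injective (congrArg Prod.fst hxy))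
    (congrArg Prod.snd hxy)

end Step

end Pool.Agent.L5helper82.FP
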