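import Pool.Agent.L5helper82.FP.Final

set_option linter.unusedSectionVars false

open MeasureTheory Topology
open scoped ENNReal

namespace Pool.Agent.L5helper82.FP

/-- Bounded operators on a complex Hilbert space. -/
def Bop (H : Type) [NormedAddCommGroup H] [InnerProductSpace ℂ H] : Type := H →L[ℂ] H

section

variable {H : Type} [NormedAddCommGroup H] [InnerProductSpace ℂ H]

/-- The ring and norm structure of `B(H)`. -/
@[reducible] noncomputable def bopRing : NormedRing (Bop H) :=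
  (ContinuousLinearMap.toNormedRing : NormedRing (H →L[ℂ] H))

noncomputable instance : NormedRing (Bop H) := bopRing

/-- The complex algebra structure of `B(H)`. -/
@[reducible] noncomputable def bopAlg : NormedAlgebra ℂ (Bop H) :=
  (ContinuousLinearMap.toNormedAlgebra : NormedAlgebra ℂ (H →L[ℂ] H))

noncomputable instance : NormedAlgebra ℂ (Bop H) := bopAlg

/-- Application of an operator to a vector. -/
def Bop.app (T : Bop H) (x : H) : H := (show H →L[ℂ] H from T) x

end

/-- A subset `A` of a normed algebra (in practice a closed subalgebra) is simple: its only closed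
two-sided ideals are `0` and `A`. -/
def SimpleAlg {B : Type} [NormedRing B] [NormedAlgebra ℂ B] (A : Set B) : Prop :=
  ∀ I : Submodule ℂ B, (I : Set B) ⊆ A → IsClosed (I : Set B) →
    (∀ a ∈ A, ∀ x ∈ I, a * x ∈ I ∧ x * a ∈ I) → (I : Set B) = {0} ∨ (I : Set B) = A

section

variable {G : Type} [Group G] [TopologicalSpace G] [IsTopologicalGroup G]
  [MeasurableSpace G] [BorelSpace G]

/-- The Hilbert space `L²(G, μ)`. -/
def L2 (μ : Measure G) : Type := Lp ℂ 2 μ

/-- The norm of `L²(G, μ)`. -/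
@[reducible] noncomputable def l2Norm (μ : Measure G) : NormedAddCommGroup (L2 μ) :=
  (Lp.instNormedAddCommGroup : NormedAddCommGroup (Lp ℂ 2 μ))

noncomputable instance (μ : Measure G) : NormedAddCommGroup (L2 μ) := l2Norm μ

/-- The inner product of `L²(G, μ)`. -/
@[reducible] noncomputable def l2Inner (μ : Measure G) : InnerProductSpace ℂ (L2 μ) :=
  (L2.innerProductSpace : InnerProductSpace ℂ (Lp ℂ 2 μ))

noncomputable instance (μ : Measure G) : InnerProductSpace ℂ (L2 μ) := l2Inner μ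

/-- A square integrable function as a function. -/
noncomputable def L2.fn {μ : Measure G} (ξ : L2 μ) : G → ℂ := (show Lp ℂ 2 μ from ξ)

/-- The matrix coefficient `⟨ζ, λ(y) ξ⟩` of the left regular representation
`(λ(y) ξ)(x) = ξ(y⁻¹ x)` on `L²(G, μ)`. -/
noncomputable def coef (μ : Measure G) (ζ ξ : L2 μ) (y : G) : ℂ :=
  ∫ x, (starRingEnd ℂ) (ζ.fn x) * ξ.fn (y⁻¹ * x) ∂μ

/-- `T` is the operator `λ(f) = ∫ f(y) λ(y) dμ(y)` (weak integral), `f` integrable. -/
def IsLambda (μ : Measure G) (f : G → ℂ) (T : Bop (L2 μ)) : Prop :=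
  Integrable f μ ∧ ∀ ξ ζ : L2 μ, inner ℂ ζ (T.app ξ) = ∫ y, f y * coef μ ζ ξ y ∂μ

/-- The reduced group C*-algebra: the norm closure of `λ(L¹(G))` in `B(L²(G))`. -/
def Cred (μ : Measure G) : Set (Bop (L2 μ)) :=
  closure {T | ∃ f, IsLambda μ f T}

end

/-- Some `G`-boundary has a point with trivial stabilizer. -/
def HasFreeBoundaryPoint (G : Type) [Group G] [TopologicalSpace G] : Prop :=
  ∃ (X : Type) (_ : TopologicalSpace X) (_ : MulAction G X), IsBoundary G X ∧
    ∃ z : X, ∀ g : G, g • z = z → g = 1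

theorem coef_eq {G : Type} [Group G] [TopologicalSpace G] [IsTopologicalGroup G]
    [MeasurableSpace G] [BorelSpace G] (μ : Measure G) [μ.IsHaarMeasure] (ζ ξ : Lp ℂ 2 μ) (y : G) :
    coef μ ζ ξ y = inner ℂ ζ (lreg μ y ξ) := by
  rw [L2.inner_def]
  refine integral_congr_ae ?_
  have h : (lreg μ y ξ : G → ℂ) =ᵐ[μ] fun x => ξ (y⁻¹ * x) :=
    Lp.coeFn_compMeasurePreserving ξ (measurePreserving_mul_left μ y⁻¹)
  filter_upwards [h] with x hx
  rw [hx, RCLike.inner_apply, mul_comm]
  rfl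

theorem lambda_iff {G : Type} [Group G] [TopologicalSpace G] [IsTopologicalGroup G]
    [MeasurableSpace G] [BorelSpace G] (μ : Measure G) [μ.IsHaarMeasure] (f : G → ℂ)
    (T : Lp ℂ 2 μ →L[ℂ] Lp ℂ 2 μ) : IsConv μ f T ↔ IsLambda μ f T := by
  constructor
  · rintro ⟨h1, h2⟩
    refine ⟨h1, fun ξ ζ => ?_⟩
    have h3 := h2 ξ ζ
    have h4 : (fun y => f y * coef μ ζ ξ y) = fun y => f y * inner ℂ (show Lp ℂ 2 μ from ζ)
        (lreg μ y (show Lp ℂ 2 μ from ξ)) := by
      funext y
      rw [← coef_eq]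
    rw [h4]
    exact h3
  · rintro ⟨h1, h2⟩
    refine ⟨h1, fun ξ ζ => ?_⟩
    have h3 := h2 ξ ζ
    have h4 : (fun y => f y * coef μ ζ ξ y) = fun y => f y * inner ℂ ζ (lreg μ y ξ) := by
      funext y
      rw [← coef_eq]
    rw [h4] at h3
    exact h3

theorem simple_bridge {G : Type} [Group G] [TopologicalSpace G] [IsTopologicalGroup G]
    [MeasurableSpace G] [BorelSpace G] (μ : Measure G) [μ.IsHaarMeasure]
    (h : ¬ IsSimpleAlg (redCstar μ)) : ¬ SimpleAlg (Cred μ) := by
  have e : redCstar μ = Cred μ := by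
    unfold redCstar Cred
    have : {T : Lp ℂ 2 μ →L[ℂ] Lp ℂ 2 μ | ∃ f, IsConv μ f T} =
        {T : Lp ℂ 2 μ →L[ℂ] Lp ℂ 2 μ | ∃ f, IsLambda μ f T} := by
      ext T
      constructor
      · rintro ⟨f, hf⟩
        exact ⟨f, (lambda_iff μ f T).mp hf⟩
      · rintro ⟨f, hf⟩
        exact ⟨f, (lambda_iff μ f T).mpr hf⟩
    rw [this]
    rfl
  rw [e] at h
  exact h

end Pool.Agent.L5helper82.FP
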