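import Pool.Agent.L5helper82.FP.Step
import Pool.Agent.L5helper82.FP.DirLim

set_option linter.unusedSectionVars false

open Set Topology Filter

namespace Pool.Agent.L5helper82.FP

/-- a stage of the tower -/
structure St where
  T : Type
  grp : Group T
  cnt : Countable T
  A : Subgroup T
  Q : Set T
  s : T →* C2
  lf : LF A
  oneQ : (1 : T) ∈ Q
  odd : ∀ g : T, ∃ q ∈ Q, s q ≠ 1 ∧ g⁻¹ * q * g ∈ A
  big : ∃ a b : T, a ≠ 1 ∧ b ≠ 1 ∧ a ≠ b

attribute [instance] St.grp St.cnt

/-- the first stage -/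
noncomputable def base : St where
  T := Multiplicative (ZMod 4)
  grp := inferInstance
  cnt := inferInstance
  A := ⊤
  Q := univ
  s := AddMonoidHom.toMultiplicative (ZMod.castHom (show 2 ∣ 4 by norm_num) (ZMod 2)).toAddMonoidHom
  lf := fun S _ _ => ⟨⊤, Set.toFinite _, fun _ _ => trivial, le_rfl⟩
  oneQ := mem_univ _
  odd := by
    intro g
    refine ⟨Multiplicative.ofAdd 1, mem_univ _, ?_, trivial⟩
    change Multiplicative.ofAdd ((ZMod.castHom (show 2 ∣ 4 by norm_num) (ZMod 2)) 1) ≠ 1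
    rw [map_one]
    decide
  big := ⟨Multiplicative.ofAdd 1, Multiplicative.ofAdd 2, by decide, by decide, by decide⟩

/-- the next stage -/
noncomputable def nextSt (S : St) : St where
  T := Nx S.T
  grp := inferInstance
  cnt := countable_Nx
  A := AN S.A
  Q := QN S.Q
  s := sN S.s
  lf := lf_step S.lf
  oneQ := ⟨1, S.oneQ, 1, by simp⟩
  odd := odd_step S.odd S.oneQ
  big := by
    obtain ⟨a, b, ha, hb, hab⟩ := S.big
    have hi := io_inj S.T
    exact ⟨io S.T a, io S.T b, fun h => ha (hi (by rw [h, map_one])),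
      fun h => hb (hi (by rw [h, map_one])), fun h => hab (hi h)⟩

/-- the tower -/
noncomputable def tower : ℕ → St
  | 0 => base
  | n + 1 => nextSt (tower n)

instance (n : ℕ) : TopologicalSpace (tower n).T := ⊥
instance (n : ℕ) : DiscreteTopology (tower n).T := ⟨rfl⟩

section Jm

variable (Γ : Type) [Group Γ]

/-- transition map -/
noncomputable def jm : Γ × (ℕ → C2) →* Nx Γ × (ℕ → C2) where
  toFun p := (io Γ p.1 * wh Γ (p.2 0), fun k => p.2 (k + 1))
  map_one' := by
    ext1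
    · simp
    · rfl
  map_mul' p q := by
    ext1
    · change io Γ (p.1 * q.1) * wh Γ (p.2 0 * q.2 0) =
        (io Γ p.1 * wh Γ (p.2 0)) * (io Γ q.1 * wh Γ (q.2 0))
      rw [map_mul, map_mul, mul_assoc, mul_assoc, ← mul_assoc (wh Γ (p.2 0)) (io Γ q.1),
        comm_wh, mul_assoc]
    · rfl

theorem jm_inj : Function.Injective (jm Γ) := by
  rintro ⟨γ, ε⟩ ⟨γ', ε'⟩ h
  have h1 : io Γ γ * wh Γ (ε 0) = io Γ γ' * wh Γ (ε' 0) := congrArg Prod.fst h
  have h2 : (fun k => ε (k + 1)) = fun k => ε' (k + 1) := congrArg Prod.snd h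
  obtain ⟨h3, h4⟩ := io_wh_inj Γ h1
  refine Prod.ext h3 (funext fun k => ?_)
  cases k with
  | zero => exact h4
  | succ k => exact congrFun h2 k

/-- prepend a letter -/
def cons (e : C2) (ε : ℕ → C2) : ℕ → C2
  | 0 => e
  | k + 1 => ε k

theorem jm_cons (γ : Γ) (e : C2) (ε : ℕ → C2) : jm Γ (γ, cons e ε) = (io Γ γ * wh Γ e, ε) := rfl

theorem jm_openEmb [TopologicalSpace Γ] [DiscreteTopology Γ] [TopologicalSpace (Nx Γ)]
    [DiscreteTopology (Nx Γ)] : IsOpenEmbedding (jm Γ) := by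
  have hc : Continuous (jm Γ) := by
    obtain ⟨Φ, hΦ⟩ : ∃ Φ : Γ × C2 → Nx Γ, ∀ γ e, io Γ γ * wh Γ e = Φ (γ, e) :=
      ⟨fun p => io Γ p.1 * wh Γ p.2, fun _ _ => rfl⟩
    have e : (jm Γ : Γ × (ℕ → C2) → Nx Γ × (ℕ → C2)) =
        fun p => (Φ (p.1, p.2 0), fun k => p.2 (k + 1)) := by
      funext p
      exact Prod.ext (hΦ _ _) rfl
    rw [e]
    have h0 : Continuous fun ε : ℕ → C2 => ε 0 := continuous_apply 0
    have h1 : Continuous Φ := continuous_of_discreteTopology
    have h2 : Continuous fun p : Γ × (ℕ → C2) => ((p.1, p.2 0) : Γ × C2) :=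
      continuous_fst.prodMk (h0.comp continuous_snd)
    have h5 : Continuous fun ε : ℕ → C2 => (fun k => ε (k + 1) : ℕ → C2) :=
      continuous_pi fun k => continuous_apply (k + 1)
    have h4 : Continuous fun p : Γ × (ℕ → C2) => (fun k => p.2 (k + 1) : ℕ → C2) :=
      h5.comp continuous_snd
    exact (h1.comp h2).prodMk h4
  refine .of_continuous_injective_isOpenMap hc (jm_inj Γ) ?_
  rw [isOpenMap_iff_nhds_le]
  intro p s hs
  let r : (ℕ → C2) → Γ × (ℕ → C2) := fun ε => (p.1, cons (p.2 0) ε)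
  have hr : Continuous r := by
    refine continuous_const.prodMk (continuous_pi fun k => ?_)
    cases k with
    | zero => exact continuous_const
    | succ k => exact continuous_apply k
  have hrp : r (jm Γ p).2 = p := by
    refine Prod.ext rfl (funext fun k => ?_)
    cases k <;> rfl
  have h1 : r ⁻¹' (jm Γ ⁻¹' s) ∈ 𝓝 (jm Γ p).2 := by
    refine hr.continuousAt.preimage_mem_nhds ?_
    rw [hrp]
    exact hs
  have h2 : {x : Nx Γ × (ℕ → C2) | x.1 = (jm Γ p).1 ∧ x.2 ∈ r ⁻¹' (jm Γ ⁻¹' s)} ∈ 𝓝 (jm Γ p) := by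
    have h3 : ({(jm Γ p).1} : Set (Nx Γ)) ∈ 𝓝 (jm Γ p).1 := by simp
    have := prod_mem_nhds h3 h1
    refine mem_of_superset this ?_
    rintro x ⟨hx1, hx2⟩
    exact ⟨hx1, hx2⟩
  refine mem_of_superset h2 ?_
  rintro ⟨x, ε⟩ ⟨hx1, hx2⟩
  have h4 : jm Γ (r ε) = (x, ε) := by
    refine Prod.ext ?_ rfl
    exact hx1.symm
  have h5 : jm Γ (r ε) ∈ s := hx2
  rwa [h4] at h5

end Jm

/-- the levels -/
abbrev Lv (n : ℕ) : Type := (tower n).T × (ℕ → C2)

/-- the transition maps of the levels -/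
noncomputable def jn (n : ℕ) : Lv n →* Lv (n + 1) := jm (tower n).T

theorem jn_emb (n : ℕ) : IsOpenEmbedding (jn n) := by
  letI : TopologicalSpace (Nx (tower n).T) := (inferInstance : TopologicalSpace (tower (n + 1)).T)
  haveI : DiscreteTopology (Nx (tower n).T) := (inferInstance : DiscreteTopology (tower (n + 1)).T)
  exact jm_openEmb (tower n).T

/-- the group -/
abbrev GG : Type := Lim jn

instance : IsTopologicalGroup GG := lim_group jn jn_emb
instance : T2Space GG := lim_t2 jn jn_emb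
instance : LocallyCompactSpace GG := lim_lc jn jn_emb
instance : SecondCountableTopology GG := lim_sc jn jn_emb

end Pool.Agent.L5helper82.FP
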